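import Mathlib
import Pool.Agent.Helper34.ZP.P3

/-!
# Gram matrices of the objects of a semisimple category
-/

namespace Pool.Agent.Helper10.ZP

open Module Finset Pool.Agent.Helper30.ZP Pool.Agent.Helper34.ZP

universe v

section modules

variable {K C : Type*} [Field K] [Ring C] [Algebra K C] {M : Type*} [AddCommGroup M] [Module C M]
  [Module K M] [IsScalarTower K C M]

variable (K) in
/-- The dimensions of the spaces of homomorphisms between finitely many semisimple modules. -/
theorem exists_gram [Module.Finite K M] {ι : Type} [Fintype ι] [DecidableEq ι]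
    (P : ι → Submodule C M) (hs : ∀ i, IsSemisimpleModule C (P i))
    (hf : ∀ i, Module.Finite C (P i)) :
    ∃ (Q : Type) (_ : Fintype Q) (w : Q → ℕ) (μ : ι → Q → ℕ),
      ∀ i j, hd K (P i) (P j) = ∑ c, w c * (μ i c * μ j c) := by
  classical
  choose n V e hV using fun i => haveI := hs i; haveI := hf i; exists_family K (P i)
  let U : (Σ i, Fin (n i)) → Submodule C M := fun x => V x.1 x.2
  have hUs : ∀ x, IsSimpleModule C (U x) := fun x => hV x.1 x.2
  let r : Setoid (Σ i, Fin (n i)) :=
    { r := fun x y => Nonempty (U x ≃ₗ[C] U y)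
      iseqv := ⟨fun x => ⟨LinearEquiv.refl C _⟩, fun ⟨h⟩ => ⟨h.symm⟩,
        fun ⟨h⟩ ⟨h'⟩ => ⟨h.trans h'⟩⟩ }
  haveI : Fintype (Quotient r) := Fintype.ofFinite _
  let d : Quotient r → ℕ := Quotient.lift (s := r) (fun z => hd K (U z) (U z))
        (fun a b (h : Nonempty (U a ≃ₗ[C] U b)) => hd_congr K h.some h.some)
  have hf : ∀ x y, hd K (U x) (U y) = if Quotient.mk r x = Quotient.mk r y then
      d (Quotient.mk r x) else 0 := by
    intro x y
    by_cases h : Nonempty (U x ≃ₗ[C] U y)
    · rw [if_pos (Quotient.sound h)]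
      exact hd_congr K (LinearEquiv.refl C _) h.some.symm
    · rw [if_neg (fun h' => h (Quotient.exact h'))]
      haveI := hUs x
      haveI := hUs y
      exact hd_simple K h
  refine ⟨Quotient r, inferInstance, d,
    fun i c => #{a : Fin (n i) | Quotient.mk r ⟨i, a⟩ = c}, fun i j => ?_⟩
  rw [hd_pi K (e i) (e j)]
  exact block_sum (fun x => Quotient.mk r x) d _ hf (ι := Fin (n i)) (κ := Fin (n j))
    (fun a => ⟨i, a⟩) (fun b => ⟨j, b⟩)

end modules

/-- The dimensions of the corners of finitely many idempotents. -/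
theorem exists_gram_corner {F C : Type*} [Field F] [Ring C] [Algebra F C] [Module.Finite F C]
    [IsSemisimpleRing C] {ι : Type} [Fintype ι] [DecidableEq ι] (p : ι → C)
    (hp : ∀ i, p i * p i = p i) :
    ∃ (Q : Type) (_ : Fintype Q) (w : Q → ℕ) (μ : ι → Q → ℕ),
      ∀ i j, finrank F (LinearMap.range (Pool.Agent.Helper34.ZP.corner (F := F) (p j) (p i))) =
        ∑ c, w c * (μ i c * μ j c) := by
  obtain ⟨Q, hQ, w, μ, h⟩ := exists_gram F (fun i => Submodule.span C {p i})
    (fun i => inferInstance) (fun i => inferInstance)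
  refine ⟨Q, hQ, w, μ, fun i j => ?_⟩
  have h1 : finrank F (LinearMap.range (Pool.Agent.Helper34.ZP.corner (F := F) (p j) (p i))) =
      finrank F (Pool.Agent.Helper30.ZP.corner F (p j) (p i)) := rfl
  rw [h1, finrank_corner (hp j) (hp i), h]
  refine Finset.sum_congr rfl fun c _ => ?_
  ring

section family

variable {F : Type*} [Field F] {ι : Type} [Fintype ι] [DecidableEq ι] {V : ι → Type v}
  [∀ i, AddCommGroup (V i)] [∀ i, Module F (V i)]

/-- Spaces of linear maps between finitely many vector spaces which contain the identities, are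
closed under compositions and compatible with involutions. -/
structure IsCatF (s : ∀ i, V i →ₗ[F] V i) (M : ∀ i j, Submodule F (V i →ₗ[F] V j)) : Prop where
  ss : ∀ i, s i ∘ₗ s i = LinearMap.id
  id_mem : ∀ i, LinearMap.id ∈ M i i
  comp_mem : ∀ i j l, ∀ x ∈ M j l, ∀ y ∈ M i j, x ∘ₗ y ∈ M i l
  comm : ∀ i j, ∀ x ∈ M i j, s j ∘ₗ x = x ∘ₗ s i

/-- the map `x ↦ q' x q` -/
def sand {V V' : Type*} [AddCommGroup V] [Module F V] [AddCommGroup V'] [Module F V']
    (q : V →ₗ[F] V) (q' : V' →ₗ[F] V') : (V →ₗ[F] V') →ₗ[F] (V →ₗ[F] V') where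
  toFun x := q' ∘ₗ x ∘ₗ q
  map_add' x y := by rw [LinearMap.add_comp, LinearMap.comp_add]
  map_smul' a x := by rw [LinearMap.smul_comp, LinearMap.comp_smul, RingHom.id_apply]

variable {s : ∀ i, V i →ₗ[F] V i} {M : ∀ i j, Submodule F (V i →ₗ[F] V j)}

omit [DecidableEq ι] in
lemma proj_comp_single_comp [DecidableEq ι] (X Y : Module.End F (∀ i, V i)) (i l : ι) :
    LinearMap.proj (R := F) l ∘ₗ (X * Y) ∘ₗ LinearMap.single F V i =
      ∑ j, (LinearMap.proj l ∘ₗ X ∘ₗ LinearMap.single F V j) ∘ₗ
        (LinearMap.proj j ∘ₗ Y ∘ₗ LinearMap.single F V i) := by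
  refine LinearMap.ext fun x => ?_
  rw [LinearMap.sum_apply]
  change X (Y (LinearMap.single F V i x)) l = ∑ j, X (LinearMap.single F V j
    (Y (LinearMap.single F V i x) j)) l
  generalize Y (LinearMap.single F V i x) = y
  have h : y = ∑ j, LinearMap.single F V j (y j) := by
    refine funext fun j => ?_
    rw [Finset.sum_apply, Finset.sum_eq_single j]
    · simp
    · intro b _ hb
      simp [Pi.single_eq_of_ne hb.symm]
    · simp
  conv_lhs => rw [h, map_sum, Finset.sum_apply]

/-- the algebra of matrices with entries in the spaces `M i j` -/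
def algF (h : IsCatF s M) : Subalgebra F (Module.End F (∀ i, V i)) where
  carrier := {X | ∀ i j, LinearMap.proj j ∘ₗ X ∘ₗ LinearMap.single F V i ∈ M i j}
  mul_mem' := by
    intro X Y hX hY i l
    rw [proj_comp_single_comp]
    exact Submodule.sum_mem _ fun j _ => h.comp_mem i j l _ (hX j l) _ (hY i j)
  add_mem' := by
    intro X Y hX hY i j
    have e : LinearMap.proj j ∘ₗ (X + Y) ∘ₗ LinearMap.single F V i =
        LinearMap.proj j ∘ₗ X ∘ₗ LinearMap.single F V i +
          LinearMap.proj j ∘ₗ Y ∘ₗ LinearMap.single F V i := by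
      rw [LinearMap.add_comp, LinearMap.comp_add]
    rw [e]
    exact add_mem (hX i j) (hY i j)
  algebraMap_mem' := by
    intro r i j
    by_cases hij : i = j
    · subst hij
      have e : LinearMap.proj i ∘ₗ (algebraMap F (Module.End F (∀ i, V i)) r) ∘ₗ
          LinearMap.single F V i = r • LinearMap.id := by
        refine LinearMap.ext fun x => ?_
        simp [Module.algebraMap_end_apply]
      rw [e]
      exact (M i i).smul_mem r (h.id_mem i)
    · have e : LinearMap.proj j ∘ₗ (algebraMap F (Module.End F (∀ i, V i)) r) ∘ₗ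
          LinearMap.single F V i = 0 := by
        refine LinearMap.ext fun x => ?_
        simp [Module.algebraMap_end_apply, Pi.single_eq_of_ne (Ne.symm hij)]
      rw [e]
      exact (M i j).zero_mem

lemma mem_algF (h : IsCatF s M) {X : Module.End F (∀ i, V i)} : X ∈ algF h ↔
    ∀ i j, LinearMap.proj j ∘ₗ X ∘ₗ LinearMap.single F V i ∈ M i j := Iff.rfl

lemma entry_mem (h : IsCatF s M) {i j : ι} {x : V i →ₗ[F] V j} (hx : x ∈ M i j) :
    (LinearMap.single F V j ∘ₗ x ∘ₗ LinearMap.proj i : Module.End F (∀ i, V i)) ∈ algF h := by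
  intro i' j'
  by_cases hi : i' = i
  · subst hi
    by_cases hj : j' = j
    · subst hj
      refine P3_to hx (LinearMap.ext fun y => ?_)
      simp
    · refine P3_to (M i' j').zero_mem (LinearMap.ext fun y => ?_)
      simp [Pi.single_eq_of_ne hj]
  · refine P3_to (M i' j').zero_mem (LinearMap.ext fun y => ?_)
    simp [Pi.single_eq_of_ne (Ne.symm hi)]

/-- the involution of the sum -/
def invF (s : ∀ i, V i →ₗ[F] V i) : Module.End F (∀ i, V i) :=
  LinearMap.pi fun i => s i ∘ₗ LinearMap.proj i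

omit [Fintype ι] [DecidableEq ι] in
lemma proj_invF (i : ι) : LinearMap.proj i ∘ₗ invF s = s i ∘ₗ LinearMap.proj i := by
  refine LinearMap.ext fun x => ?_
  rfl

omit [Fintype ι] in
lemma invF_single (i : ι) : invF s ∘ₗ LinearMap.single F V i = LinearMap.single F V i ∘ₗ s i := by
  refine LinearMap.ext fun x => funext fun j => ?_
  change s j (LinearMap.single F V i x j) = LinearMap.single F V i (s i x) j
  by_cases hj : j = i
  · subst hj
    simp
  · simp [Pi.single_eq_of_ne hj]

lemma comm_algF (h : IsCatF s M) {X : Module.End F (∀ i, V i)} (hX : X ∈ algF h) :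
    invF s * X = X * invF s := by
  refine LinearMap.pi_ext' fun i => ?_
  refine LinearMap.ext fun x => funext fun j => ?_
  have h1 := LinearMap.congr_fun (h.comm i j _ (hX i j)) x
  have h2 := LinearMap.congr_fun (invF_single (s := s) i) x
  change invF s (LinearMap.single F V i x) = LinearMap.single F V i (s i x) at h2
  change s j (X (LinearMap.single F V i x) j) = X (invF s (LinearMap.single F V i x)) j
  rw [h2]
  exact h1

lemma nul_entry [∀ i, Module.Finite F (V i)] (h : IsCatF s M) {i j : ι} {x : V i →ₗ[F] V j}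
    (hx : x ∈ M i j) :
    (LinearMap.single F V j ∘ₗ x ∘ₗ LinearMap.proj i : Module.End F (∀ i, V i)) ∈
      nul (invF s) (Subalgebra.toSubmodule (algF h)) (Subalgebra.toSubmodule (algF h)) ↔
        x ∈ nul (s i) (M i j) (M j i) := by
  constructor
  · rintro ⟨-, h2⟩
    refine ⟨hx, fun y hy => ?_⟩
    have h3 := h2 _ (entry_mem h hy)
    rw [P3_trace _ _ (proj_invF (s := s) i)] at h3
    have e : LinearMap.proj i ∘ₗ (LinearMap.single F V i ∘ₗ y ∘ₗ LinearMap.proj j) ∘ₗ
        LinearMap.single F V j = y := by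
      refine LinearMap.ext fun z => ?_
      simp
    rwa [e] at h3
  · rintro ⟨-, h2⟩
    refine ⟨entry_mem h hx, fun Y hY => ?_⟩
    rw [P3_trace _ _ (proj_invF (s := s) i)]
    exact h2 _ (hY j i)

/-- **Gram matrix** of finitely many objects `(V i, e i)` of a category of linear maps, modulo the
radical of the trace form. -/
theorem exists_gram_cat [∀ i, Module.Finite F (V i)] (h : IsCatF s M) (e : ∀ i, V i →ₗ[F] V i)
    (he : ∀ i, e i ∈ M i i) (hee : ∀ i, e i ∘ₗ e i = e i) :
    ∃ (Q : Type) (_ : Fintype Q) (w : Q → ℕ) (μ : ι → Q → ℕ), ∀ i j,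
      rdim (nul (s i) (M i j) (M j i)) ((M i j).map (sand (e i) (e j))) =
        ∑ c, w c * (μ i c * μ j c) := by
  have hSS : (invF s : Module.End F (∀ i, V i)) * invF s = 1 := by
    refine LinearMap.ext fun x => funext fun j => ?_
    exact LinearMap.congr_fun (h.ss j) (x j)
  obtain ⟨Q, _, _, π, hπ, hss, hfin, hker⟩ := exists_ideal (algF h) (invF s) hSS
    (fun X hX => comm_algF h hX)
  let p : ι → algF h := fun i => ⟨_, entry_mem h (he i)⟩
  have hp : ∀ i, p i * p i = p i := by
    intro i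
    apply Subtype.ext
    refine LinearMap.ext fun x => ?_
    have h1 : e i (e i (x i)) = e i (x i) := LinearMap.congr_fun (hee i) (x i)
    change LinearMap.single F V i (e i (LinearMap.single F V i (e i (x i)) i)) =
      LinearMap.single F V i (e i (x i))
    have h2 : LinearMap.single F V i (e i (x i)) i = e i (x i) := by simp
    rw [h2, h1]
  obtain ⟨Q', hQ', w, μ, hg⟩ := exists_gram_corner (F := F) (fun i => π (p i))
    (fun i => by rw [← map_mul, hp])
  refine ⟨Q', hQ', w, μ, fun i j => ?_⟩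
  rw [← hg i j]
  symm
  have hB : ∀ x ∈ (M i j).map (sand (e i) (e j)), x ∈ M i j ∧ e j ∘ₗ x ∘ₗ e i = x := by
    rintro _ ⟨y, hy, rfl⟩
    refine ⟨h.comp_mem i j j _ (he j) _ (h.comp_mem i i j _ hy _ (he i)), ?_⟩
    change e j ∘ₗ (e j ∘ₗ y ∘ₗ e i) ∘ₗ e i = e j ∘ₗ y ∘ₗ e i
    refine LinearMap.ext fun z => ?_
    have h1 : ∀ z, e i (e i z) = e i z := fun z => LinearMap.congr_fun (hee i) z
    have h2 : ∀ z, e j (e j z) = e j z := fun z => LinearMap.congr_fun (hee j) z
    simp only [LinearMap.comp_apply, h1, h2]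
  refine P3_corner hπ hker (LinearMap.single F V j) (LinearMap.proj i) _ _ (p j) (p i)
    (fun x hx => entry_mem h (hB x hx).1) (fun x hx => nul_entry h (hB x hx).1)
    (fun X hX => ?_) (fun x hx => ?_)
  · exact ⟨_, ⟨_, hX i j, rfl⟩, rfl⟩
  · refine LinearMap.ext fun z => ?_
    have h1 := LinearMap.congr_fun (hB x hx).2 (z i)
    change LinearMap.single F V j (e j (LinearMap.single F V j (x
      (LinearMap.single F V i (e i (z i)) i)) j)) = LinearMap.single F V j (x (z i))
    have h2 : LinearMap.single F V i (e i (z i)) i = e i (z i) := by simp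
    have h3 : LinearMap.single F V j (x (e i (z i))) j = x (e i (z i)) := by simp
    rw [h2, h3]
    exact congrArg _ h1

end family

/-- the Cauchy-Schwarz inequality for virtual objects -/
theorem gram_sq_le {Q : Type} [Fintype Q] (w : Q → ℕ) (a b c : Q → ℤ) (E : ℤ) :
    (E * (∑ q, (w q : ℤ) * (a q * c q)) - ∑ q, (w q : ℤ) * (b q * c q)) ^ 2 ≤
      (E ^ 2 * (∑ q, (w q : ℤ) * (a q * a q)) - 2 * E * (∑ q, (w q : ℤ) * (b q * a q)) +
        ∑ q, (w q : ℤ) * (b q * b q)) * ∑ q, (w q : ℤ) * (c q * c q) := by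
  have h1 : E * (∑ q, (w q : ℤ) * (a q * c q)) - ∑ q, (w q : ℤ) * (b q * c q) =
      ∑ q, (w q : ℤ) * ((E * a q - b q) * c q) := by
    rw [Finset.mul_sum, ← Finset.sum_sub_distrib]
    refine Finset.sum_congr rfl fun q _ => ?_
    ring
  have h2 : E ^ 2 * (∑ q, (w q : ℤ) * (a q * a q)) - 2 * E * (∑ q, (w q : ℤ) * (b q * a q)) +
        ∑ q, (w q : ℤ) * (b q * b q) = ∑ q, (w q : ℤ) * ((E * a q - b q) * (E * a q - b q)) := by
    rw [Finset.mul_sum, Finset.mul_sum, ← Finset.sum_sub_distrib, ← Finset.sum_add_distrib]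
    refine Finset.sum_congr rfl fun q _ => ?_
    ring
  rw [h1, h2]
  refine Finset.sum_sq_le_sum_mul_sum_of_sq_eq_mul _ (fun q _ => ?_) (fun q _ => ?_) fun q _ => ?_
  · exact mul_nonneg (Int.natCast_nonneg _) (mul_self_nonneg _)
  · exact mul_nonneg (Int.natCast_nonneg _) (mul_self_nonneg _)
  · ring

end Pool.Agent.Helper10.ZP
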