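import Mathlib
import Pool.Agent.Helper34.ZP.G4
import Pool.Agent.Helper10.ZP.Gram

/-!
# The Cauchy-Schwarz inequality for three objects
-/

universe u v w t

open CategoryTheory TensorProduct Finset

namespace Pool.Agent.Helper10.ZP

open Pool.Agent.Helper10 Pool.Agent.Helper11.Iso SmProjVar SPre Pool.Agent.Helper34.ZP

variable {k : Type u} [Field k] {K : Type t} [Field K] {Ω : Type v} [Field Ω] [Algebra K Ω]
  {P : SPre.{u, v, w, t} k K Ω}

/-- linear maps on `H(A × (B × C))` which agree on products of homogeneous classes -/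
lemma hom_ext_three {A B C : SmProjVar k} {M : Type*} [AddCommGroup M] [Module Ω M]
    {f g : P.H (A.prod (B.prod C)) →ₗ[Ω] M}
    (h : ∀ a b c, P.Hom A a → P.Hom B b → P.Hom C c →
      f (P.ext _ _ a (P.ext B C b c)) = g (P.ext _ _ a (P.ext B C b c))) : f = g := by
  refine LinearMap.ext fun x => ?_
  induction x using ext_induction with
  | hext a y ha hy =>
    clear hy
    induction y using ext_induction with
    | hext b c hb hc => exact h a b c ha hb hc
    | hzero => rw [ext_zero_right, map_zero, map_zero]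
    | hadd x y hx hy => rw [ext_add_right, map_add, map_add, hx, hy]
    | hsmul a x hx => rw [ext_smul_right, map_smul, map_smul, hx]
  | hzero => rw [map_zero, map_zero]
  | hadd x y hx hy => rw [map_add, map_add, hx, hy]
  | hsmul a x hx => rw [map_smul, map_smul, hx]

/-- `T × (B × Y) ≅ B × (T × Y)` -/
lemma rho_mid (B T Y : SmProjVar k) {f : P.H B →ₗ[Ω] P.H B} (hf : f ∈ Mor P B B) :
    rho P (tmap (LinearMap.id : P.H T →ₗ[Ω] P.H T)
      (tmap f (LinearMap.id : P.H Y →ₗ[Ω] P.H Y))) =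
      rho P (tmap f (LinearMap.id : P.H (T.prod Y) →ₗ[Ω] P.H (T.prod Y))) := by
  let i : (T.prod (B.prod Y)).toOver ⟶ (B.prod (T.prod Y)).toOver :=
    lift (snd _ _ ≫ fst _ _) (lift (fst _ _) (snd _ _ ≫ snd _ _))
  let p : (B.prod (T.prod Y)).toOver ⟶ (T.prod (B.prod Y)).toOver :=
    lift (snd _ _ ≫ fst _ _) (lift (fst _ _) (snd _ _ ≫ snd _ _))
  have hip : i ≫ p = 𝟙 _ := by
    apply hom_ext
    · simp only [i, p, Category.assoc, lift_fst, lift_snd, lift_fst_assoc, lift_snd_assoc,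
        Category.id_comp]
    · apply hom_ext <;> simp only [i, p, Category.assoc, lift_fst, lift_snd, lift_fst_assoc,
        lift_snd_assoc, Category.id_comp]
  have hpi : p ≫ i = 𝟙 _ := by
    apply hom_ext
    · simp only [i, p, Category.assoc, lift_fst, lift_snd, lift_fst_assoc, lift_snd_assoc,
        Category.id_comp]
    · apply hom_ext <;> simp only [i, p, Category.assoc, lift_fst, lift_snd, lift_fst_assoc,
        lift_snd_assoc, Category.id_comp]
  have hi : ∀ (b : P.H B) (t : P.H T) (y : P.H Y),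
      P.pull i (P.ext _ _ b (P.ext T Y t y)) =
        P.pull (snd _ _) (P.pull (fst B Y) b) * P.pull (fst _ _) t *
            P.pull (snd _ _) (P.pull (snd B Y) y) := by
    intro b t y
    unfold SPre.ext
    simp only [map_mul, pull_pull]
    rw [← Category.assoc, ← Category.assoc, lift_fst, lift_snd, lift_fst, lift_snd]
    noncomm_ring
  have hi' : ∀ (b : P.H B) (t : P.H T) (y : P.H Y),
      P.ext _ _ t (P.ext B Y b y) =
        P.pull (fst _ _) t * P.pull (snd _ _) (P.pull (fst B Y) b) *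
            P.pull (snd _ _) (P.pull (snd B Y) y) := by
    intro b t y
    unfold SPre.ext
    simp only [map_mul, pull_pull]
    noncomm_ring
  refine rho_eq_of_iso hip hpi fun x => ?_
  have h1 : (P.pull i).toLinearMap ∘ₗ tmap f LinearMap.id =
      tmap LinearMap.id (tmap f LinearMap.id) ∘ₗ (P.pull i).toLinearMap := by
    refine hom_ext_three fun b t y hb ht _ => ?_
    rw [LinearMap.comp_apply, LinearMap.comp_apply, tmap_ext, LinearMap.id_apply]
    change P.pull i _ = tmap _ _ (P.pull i _)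
    rw [hi, hi]
    have key : ∀ w : P.H B, (w ∈ P.ev B ∨ t ∈ P.ev T) →
        P.pull (snd T (B.prod Y)) (P.pull (fst B Y) w) * P.pull (fst T (B.prod Y)) t =
        P.pull (fst T (B.prod Y)) t * P.pull (snd T (B.prod Y)) (P.pull (fst B Y) w) := by
      rintro w (hw | hw)
      · exact P.ev_comm _ _ _ (P.pull_ev _ _ (P.pull_ev _ _ hw))
      · exact (P.ev_comm _ _ _ (P.pull_ev _ _ hw)).symm
    have key' : ∀ w : P.H B, (w ∈ P.od B ∧ t ∈ P.od T) →
        P.pull (snd T (B.prod Y)) (P.pull (fst B Y) w) * P.pull (fst T (B.prod Y)) t =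
        -(P.pull (fst T (B.prod Y)) t * P.pull (snd T (B.prod Y)) (P.pull (fst B Y) w)) := by
      rintro w ⟨hw, hw'⟩
      exact P.od_anti _ _ _ (P.pull_od _ _ (P.pull_od _ _ hw)) (P.pull_od _ _ hw')
    rcases hb with hb | hb
    · have hb' := IsMap.map_ev hf hb
      rw [key b (.inl hb), key (f b) (.inl hb'), ← hi', ← hi',
        tmap_ext, tmap_ext, LinearMap.id_apply, LinearMap.id_apply]
    · have hb' := IsMap.map_od hf hb
      rcases ht with ht | ht
      · rw [key b (.inr ht), key (f b) (.inr ht), ← hi', ← hi',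
          tmap_ext, tmap_ext, LinearMap.id_apply, LinearMap.id_apply]
      · rw [key' b ⟨hb, ht⟩, key' (f b) ⟨hb', ht⟩, neg_mul, neg_mul,
          ← hi', ← hi', map_neg, tmap_ext, tmap_ext, LinearMap.id_apply, LinearMap.id_apply]
  exact LinearMap.congr_fun h1 x

/-- the algebraic maps between finitely many varieties -/
lemma isCatF {ι : Type} [Fintype ι] [DecidableEq ι] (Z : ι → SmProjVar k) :
    IsCatF (F := Ω) (fun i => par P (Z i)) (fun i j => Mor P (Z i) (Z j)) where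
  ss i := G1_par_par (Z i)
  id_mem i := G1_id_mem (Z i)
  comp_mem _ _ _ _ hx _ hy := G1_comp_mem hy hx
  comm _ _ _ hx := G1_par_comm hx

/-- **Gram matrix** of finitely many objects `(Z i, e i)`. -/
theorem exists_gram_rho [CharZero Ω] {ι : Type} [Fintype ι] [DecidableEq ι] (Z : ι → SmProjVar k)
    (e : ∀ i, P.H (Z i) →ₗ[Ω] P.H (Z i)) (he : ∀ i, e i ∈ Mor P (Z i) (Z i))
    (hee : ∀ i, e i ∘ₗ e i = e i) :
    ∃ (Q : Type) (_ : Fintype Q) (w : Q → ℕ) (μ : ι → Q → ℕ), ∀ i j,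
      rho P (tmap (adj (e i)) (e j)) = ∑ c, w c * (μ i c * μ j c) := by
  obtain ⟨Q, hQ, w, μ, h⟩ := exists_gram_cat (isCatF (P := P) Z) e he hee
  refine ⟨Q, hQ, w, μ, fun i j => ?_⟩
  rw [← h i j]
  have h1 : (Mor P (Z i) (Z j)).map (sand (e i) (e j)) =
      ((P.alg ((Z i).prod (Z j))).map (tmap (adj (e i)) (e j))).map (opL P (Z i) (Z j)) := by
    rw [← map_opL_alg, ← Submodule.map_comp, ← Submodule.map_comp]
    congr 1
    refine LinearMap.ext fun c => ?_
    change e j ∘ₗ op c ∘ₗ e i = op (tmap (adj (e i)) (e j) c)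
    rw [op_tmap, adj_adj (he i)]
  rw [h1]
  change _ = rdim (Nul P (Z i) (Z j)) _
  rw [rdim_radS_opL]

/-- **Cauchy-Schwarz for three objects**: a virtual object `E c[Y] - [A × Y]` against
`[B × Y]`. -/
theorem three [CharZero Ω] (A B Y : SmProjVar k) {e : P.H A →ₗ[Ω] P.H A} (he : e ∈ Mor P A A)
    (hee : e ∘ₗ e = e) {f : P.H B →ₗ[Ω] P.H B} (hf : f ∈ Mor P B B) (hff : f ∘ₗ f = f) :
    ((Module.finrank Ω (LinearMap.range e) : ℤ) *
        rho P (tmap f (LinearMap.id : P.H (Y.prod Y) →ₗ[Ω] P.H (Y.prod Y))) -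
        rho P (tmap (tmap e f) (LinearMap.id : P.H (Y.prod Y) →ₗ[Ω] P.H (Y.prod Y)))) ^ 2 ≤
      2 * Module.finrank Ω (LinearMap.range e) * (Module.finrank Ω (LinearMap.range f)) ^ 2 *
        nr P (Y.prod Y) * (Module.finrank Ω (LinearMap.range e) * nr P (Y.prod Y) -
          rho P (tmap e (LinearMap.id : P.H (Y.prod Y) →ₗ[Ω] P.H (Y.prod Y)))) := by
  have hea : adj e ∘ₗ adj e = adj e := by rw [← adj_comp, hee]
  have hfa : adj f ∘ₗ adj f = adj f := by rw [← adj_comp, hff]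
  have m1 := adj_mem_Mor he
  have m2 := adj_mem_Mor hf
  let Z : Fin 3 → SmProjVar k := ![Y, A.prod Y, B.prod Y]
  let g : ∀ i, P.H (Z i) →ₗ[Ω] P.H (Z i) :=
    Fin.cons (LinearMap.id : P.H Y →ₗ[Ω] P.H Y) (Fin.cons
      (tmap (adj e) (LinearMap.id : P.H Y →ₗ[Ω] P.H Y)) (Fin.cons
        (tmap f (LinearMap.id : P.H Y →ₗ[Ω] P.H Y)) (fun i => i.elim0)))
  have hg : ∀ i, g i ∈ Mor P (Z i) (Z i) := by
    intro i
    match i with
    | 0 => exact isMap_id Y
    | 1 => exact tmap_mem_Mor m1 (isMap_id Y)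
    | 2 => exact tmap_mem_Mor hf (isMap_id Y)
  have hgg : ∀ i, g i ∘ₗ g i = g i := by
    intro i
    match i with
    | 0 => exact LinearMap.comp_id _
    | 1 => exact tmap_idem hea (LinearMap.comp_id _)
    | 2 => exact tmap_idem hff (LinearMap.comp_id _)
  obtain ⟨Q, hQ, w, μ, h⟩ := exists_gram_rho Z g hg hgg
  have h00 : rho P (tmap (adj (LinearMap.id : P.H Y →ₗ[Ω] P.H Y))
      (LinearMap.id : P.H Y →ₗ[Ω] P.H Y)) = ∑ c, w c * (μ 0 c * μ 0 c) := h 0 0
  have h10 : rho P (tmap (adj (tmap (adj e) (LinearMap.id : P.H Y →ₗ[Ω] P.H Y)))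
      (LinearMap.id : P.H Y →ₗ[Ω] P.H Y)) = ∑ c, w c * (μ 1 c * μ 0 c) := h 1 0
  have h11 : rho P (tmap (adj (tmap (adj e) (LinearMap.id : P.H Y →ₗ[Ω] P.H Y)))
      (tmap (adj e) (LinearMap.id : P.H Y →ₗ[Ω] P.H Y))) = ∑ c, w c * (μ 1 c * μ 1 c) := h 1 1
  have h02 : rho P (tmap (adj (LinearMap.id : P.H Y →ₗ[Ω] P.H Y))
      (tmap f (LinearMap.id : P.H Y →ₗ[Ω] P.H Y))) = ∑ c, w c * (μ 0 c * μ 2 c) := h 0 2
  have h12 : rho P (tmap (adj (tmap (adj e) (LinearMap.id : P.H Y →ₗ[Ω] P.H Y)))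
      (tmap f (LinearMap.id : P.H Y →ₗ[Ω] P.H Y))) = ∑ c, w c * (μ 1 c * μ 2 c) := h 1 2
  have h22 : rho P (tmap (adj (tmap f (LinearMap.id : P.H Y →ₗ[Ω] P.H Y)))
      (tmap f (LinearMap.id : P.H Y →ₗ[Ω] P.H Y))) = ∑ c, w c * (μ 2 c * μ 2 c) := h 2 2
  rw [adj_id, tmap_id, rho_id] at h00
  rw [adj_tmap m1 (isMap_id Y), adj_adj he, adj_id] at h10 h11 h12
  rw [adj_tmap hf (isMap_id Y), adj_id] at h22
  rw [rho_assoc] at h10
  rw [rho_four A Y A Y m1] at h11
  rw [adj_id, rho_mid B Y Y hf] at h02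
  rw [rho_four A Y B Y hf] at h12
  rw [rho_four B Y B Y hf] at h22
  have b11 := rho_le (P := P) (A.prod A) Y (tmap_mem_Mor he m1) (tmap_idem hee hea)
  have b22 := rho_le (P := P) (B.prod B) Y (tmap_mem_Mor m2 hf) (tmap_idem hfa hff)
  rw [finrank_range_tmap, finrank_range_adj, h11] at b11
  rw [finrank_range_tmap, finrank_range_adj, h22] at b22
  have bE := rho_le (P := P) A Y he hee
  have key := gram_sq_le w (fun c => (μ 0 c : ℤ)) (fun c => (μ 1 c : ℤ)) (fun c => (μ 2 c : ℤ))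
    (Module.finrank Ω (LinearMap.range e))
  have c00 : (nr P (Y.prod Y) : ℤ) = ∑ c, (w c : ℤ) * ((μ 0 c : ℤ) * μ 0 c) := by
    rw [h00]; push_cast; rfl
  have c10 : (rho P (tmap e (LinearMap.id : P.H (Y.prod Y) →ₗ[Ω] P.H (Y.prod Y))) : ℤ) =
      ∑ c, (w c : ℤ) * ((μ 1 c : ℤ) * μ 0 c) := by
    rw [h10]; push_cast; rfl
  have c02 : (rho P (tmap f (LinearMap.id : P.H (Y.prod Y) →ₗ[Ω] P.H (Y.prod Y))) : ℤ) =
      ∑ c, (w c : ℤ) * ((μ 0 c : ℤ) * μ 2 c) := by
    rw [h02]; push_cast; rfl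
  have c12 : (rho P (tmap (tmap e f)
      (LinearMap.id : P.H (Y.prod Y) →ₗ[Ω] P.H (Y.prod Y))) : ℤ) =
      ∑ c, (w c : ℤ) * ((μ 1 c : ℤ) * μ 2 c) := by
    rw [h12]; push_cast; rfl
  have c11 : ∑ c, (w c : ℤ) * ((μ 1 c : ℤ) * μ 1 c) ≤
      (Module.finrank Ω (LinearMap.range e) : ℤ) * Module.finrank Ω (LinearMap.range e) *
        nr P (Y.prod Y) := by exact_mod_cast b11
  have c22 : ∑ c, (w c : ℤ) * ((μ 2 c : ℤ) * μ 2 c) ≤
      (Module.finrank Ω (LinearMap.range f) : ℤ) * Module.finrank Ω (LinearMap.range f) *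
        nr P (Y.prod Y) := by exact_mod_cast b22
  have cE : (rho P (tmap e (LinearMap.id : P.H (Y.prod Y) →ₗ[Ω] P.H (Y.prod Y))) : ℤ) ≤
      (Module.finrank Ω (LinearMap.range e) : ℤ) * nr P (Y.prod Y) := by exact_mod_cast bE
  rw [← c02, ← c12, ← c00, ← c10] at key
  refine key.trans ?_
  set E : ℤ := (Module.finrank Ω (LinearMap.range e) : ℤ)
  set G : ℤ := (Module.finrank Ω (LinearMap.range f) : ℤ)
  set n : ℤ := (nr P (Y.prod Y) : ℤ)
  set x : ℤ := (rho P (tmap e (LinearMap.id : P.H (Y.prod Y) →ₗ[Ω] P.H (Y.prod Y))) : ℤ)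
  set s11 : ℤ := ∑ c, (w c : ℤ) * ((μ 1 c : ℤ) * μ 1 c)
  set s22 : ℤ := ∑ c, (w c : ℤ) * ((μ 2 c : ℤ) * μ 2 c)
  have hE : 0 ≤ E := Int.natCast_nonneg _
  have h22' : 0 ≤ s22 := Finset.sum_nonneg fun c _ =>
    mul_nonneg (Int.natCast_nonneg _) (mul_self_nonneg _)
  have h1 : E ^ 2 * n - 2 * E * x + s11 ≤ 2 * E * (E * n - x) := by nlinarith
  have h2 : 0 ≤ 2 * E * (E * n - x) := by
    have : 0 ≤ E * n - x := by linarith
    positivity
  calc (E ^ 2 * n - 2 * E * x + s11) * s22 ≤ (2 * E * (E * n - x)) * s22 :=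
        mul_le_mul_of_nonneg_right h1 h22'
    _ ≤ (2 * E * (E * n - x)) * (G * G * n) := mul_le_mul_of_nonneg_left c22 h2
    _ = 2 * E * G ^ 2 * n * (E * n - x) := by ring

end Pool.Agent.Helper10.ZP
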