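import Mathlib

/-!
# The trace inequality for Gram matrices, and ranks of integer matrices
-/

open Finset Matrix

namespace Pool.Agent.Helper10.ZP

/-- For a real matrix `V` with Gram matrix `G = Vᵀ V` one has `(tr G) ^ 2 ≤ rank V * tr (G ^ 2)`. -/
theorem trace_sq_le {ι n : Type*} [Fintype ι] [Fintype n] [DecidableEq ι] (V : Matrix n ι ℝ) :
    (Vᵀ * V).trace ^ 2 ≤ V.rank * ((Vᵀ * V) * (Vᵀ * V)).trace := by
  classical
  set A : Matrix ι ι ℝ := Vᵀ * V with hA
  have hH : A.IsHermitian := by
    rw [Matrix.IsHermitian, Matrix.conjTranspose_eq_transpose_of_trivial, hA,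
      Matrix.transpose_mul, Matrix.transpose_transpose]
  have h1 : A.trace = ∑ i, hH.eigenvalues i := by
    have := hH.trace_eq_sum_eigenvalues
    simpa using this
  have h2 : (A * A).trace = ∑ i, hH.eigenvalues i ^ 2 := by
    have hs := hH.spectral_theorem
    set U : Matrix ι ι ℝ := (hH.eigenvectorUnitary : Matrix ι ι ℝ) with hU
    set D : Matrix ι ι ℝ := Matrix.diagonal (RCLike.ofReal ∘ hH.eigenvalues) with hD
    have hs' : A = U * D * star U := by
      have := hs
      rw [Unitary.conjStarAlgAut_apply] at this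
      exact this
    have hU1 : star U * U = 1 := by
      have := (hH.eigenvectorUnitary).2
      exact (Matrix.mem_unitaryGroup_iff').mp this
    have h3 : A * A = U * (D * D) * star U := by
      rw [hs']
      calc U * D * star U * (U * D * star U) = U * D * (star U * U) * D * star U := by
            simp only [Matrix.mul_assoc]
        _ = U * (D * D) * star U := by rw [hU1]; simp only [Matrix.mul_assoc, Matrix.mul_one]
    rw [h3, Matrix.trace_mul_comm, ← Matrix.mul_assoc, hU1, Matrix.one_mul, hD,
      Matrix.diagonal_mul_diagonal, Matrix.trace_diagonal]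
    exact sum_congr rfl fun i _ => by simp [sq]
  have h3 : A.rank = Fintype.card {i // hH.eigenvalues i ≠ 0} := hH.rank_eq_card_non_zero_eigs
  have h4 : A.rank ≤ V.rank := Matrix.rank_mul_le_right _ _
  have h5 : (∑ i, hH.eigenvalues i) ^ 2 ≤
      (Fintype.card {i // hH.eigenvalues i ≠ 0} : ℝ) * ∑ i, hH.eigenvalues i ^ 2 := by
    have e1 : ∑ i, hH.eigenvalues i = ∑ i ∈ univ.filter (fun i => hH.eigenvalues i ≠ 0),
        hH.eigenvalues i := by
      rw [sum_filter_ne_zero]
    have e2 : ∑ i ∈ univ.filter (fun i => hH.eigenvalues i ≠ 0), hH.eigenvalues i ^ 2 ≤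
        ∑ i, hH.eigenvalues i ^ 2 :=
      sum_le_sum_of_subset_of_nonneg (filter_subset _ _) fun i _ _ => sq_nonneg _
    rw [e1, Fintype.card_subtype]
    refine (sq_sum_le_card_mul_sum_sq).trans ?_
    exact mul_le_mul_of_nonneg_left e2 (Nat.cast_nonneg _)
  rw [h1, h2]
  refine h5.trans ?_
  refine mul_le_mul_of_nonneg_right ?_ (sum_nonneg fun i _ => sq_nonneg _)
  rw [← h3]
  exact_mod_cast h4

/-- Integer vectors which are independent over the reals are independent over every field of
characteristic zero. -/
theorem linearIndependent_of_real {K : Type*} [Field K] [CharZero K] {n m : Type*} [Fintype n]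
    [Fintype m] [DecidableEq m] (V : m → n → ℤ)
    (h : LinearIndependent ℝ fun i => fun j => ((V i j : ℤ) : ℝ)) :
    LinearIndependent K fun i => fun j => ((V i j : ℤ) : K) := by
  classical
  let G : Matrix m m ℤ := Matrix.of fun i j => ∑ k, V i k * V j k
  have hR : (G.map (Int.cast : ℤ → ℝ)).det ≠ 0 := by
    intro h0
    obtain ⟨c, hc, hG⟩ := Matrix.exists_mulVec_eq_zero_iff.mpr h0
    refine hc ?_
    have h1 : ∑ k, (∑ i, c i * (V i k : ℝ)) ^ 2 = 0 := by
      have h2 : ∑ i, c i * ((G.map (Int.cast : ℤ → ℝ)).mulVec c) i = 0 := by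
        rw [hG]; simp
      rw [← h2]
      simp only [Matrix.mulVec, dotProduct, Matrix.map_apply, G, Matrix.of_apply, Int.cast_sum,
        Int.cast_mul, sq, sum_mul, mul_sum]
      rw [sum_comm]
      refine sum_congr rfl fun i _ => ?_
      rw [sum_comm]
      refine sum_congr rfl fun j _ => ?_
      refine sum_congr rfl fun k _ => ?_
      ring
    have h2 : ∀ k, ∑ i, c i * (V i k : ℝ) = 0 := by
      intro k
      have h3 := (sum_eq_zero_iff_of_nonneg (fun k _ => sq_nonneg _)).mp h1 k (mem_univ k)
      exact pow_eq_zero_iff (two_ne_zero) |>.mp h3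
    have h3 := Fintype.linearIndependent_iff.mp h c ?_
    · exact funext h3
    · funext k
      rw [Finset.sum_apply]
      simpa only [Pi.smul_apply, smul_eq_mul, Pi.zero_apply] using h2 k
  have hZ : G.det ≠ 0 := by
    intro h0
    refine hR ?_
    have := (Int.castRingHom ℝ).map_det G
    rw [h0, map_zero] at this
    exact this.symm
  have hK : (G.map (Int.cast : ℤ → K)).det ≠ 0 := by
    have := (Int.castRingHom K).map_det G
    intro h0
    have h1 : (Int.castRingHom K) G.det = 0 := by rw [this]; exact h0
    exact hZ ((Int.cast_eq_zero (α := K)).mp h1)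
  rw [Fintype.linearIndependent_iff]
  intro c hc
  have h1 : (G.map (Int.cast : ℤ → K)).mulVec c = 0 := by
    funext i
    have h2 : ∀ k, ∑ j, c j * (V j k : K) = 0 := by
      intro k
      have := congrFun hc k
      simpa only [Finset.sum_apply, Pi.smul_apply, smul_eq_mul, Pi.zero_apply] using this
    simp only [Matrix.mulVec, dotProduct, Matrix.map_apply, G, Matrix.of_apply, Int.cast_sum,
      Int.cast_mul, sum_mul, Pi.zero_apply]
    rw [sum_comm]
    refine sum_eq_zero fun k _ => ?_
    have h3 : ∑ j, (V i k : K) * (V j k : K) * c j = (V i k : K) * ∑ j, c j * (V j k : K) := by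
      rw [mul_sum]
      exact sum_congr rfl fun j _ => by ring
    rw [h3, h2, mul_zero]
  exact congrFun (Matrix.eq_zero_of_mulVec_eq_zero hK h1)

end Pool.Agent.Helper10.ZP
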