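import Mathlib
import Pool.Agent.Helper10.ZP.Welch

/-!
# The span of the permutations of the factors of a tensor power
-/

open Finset Matrix

namespace Pool.Agent.Helper10.ZP

theorem rank_le {K : Type*} [Field K] [CharZero K] {n m : Type*} [Fintype n] [Fintype m]
    [DecidableEq m] (V : m → n → ℤ) :
    (Matrix.of fun (j : n) (i : m) => ((V i j : ℤ) : ℝ)).rank ≤
      Module.finrank K (Submodule.span K (Set.range fun i => fun j => ((V i j : ℤ) : K))) := by
  classical
  obtain ⟨κ, a, ha, hs, hl⟩ := exists_linearIndependent' ℝ (fun i => fun j => ((V i j : ℤ) : ℝ))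
  haveI : Finite κ := Finite.of_injective a ha
  haveI : Fintype κ := Fintype.ofFinite κ
  have h1 : (Matrix.of fun (j : n) (i : m) => ((V i j : ℤ) : ℝ)).rank = Fintype.card κ := by
    rw [Matrix.rank_eq_finrank_span_cols]
    have h2 : Set.range (Matrix.of fun (j : n) (i : m) => ((V i j : ℤ) : ℝ)).col =
        Set.range (fun i => fun j => ((V i j : ℤ) : ℝ)) := rfl
    rw [h2, ← hs]
    exact finrank_span_eq_card hl
  have h3 := linearIndependent_of_real (K := K) (fun i => V (a i)) hl
  have h4 : Submodule.span K (Set.range fun i => fun j => ((V (a i) j : ℤ) : K)) ≤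
      Submodule.span K (Set.range fun i => fun j => ((V i j : ℤ) : K)) := by
    refine Submodule.span_mono ?_
    rintro _ ⟨i, rfl⟩
    exact ⟨a i, rfl⟩
  rw [h1, ← finrank_span_eq_card h3]
  exact Submodule.finrank_mono h4

/-- the action of the permutations on words -/
@[reducible] noncomputable def act (l : ℕ) (J : Type*) : MulAction (Equiv.Perm (Fin l)) (Fin l → J) :=
  arrowAction

/-- number of pairs of words fixed by the permutations, summed over the permutations -/
theorem sum_fixed_le (l : ℕ) (J : Type*) [Fintype J] [DecidableEq J] :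
    ∑ σ : Equiv.Perm (Fin l), (Fintype.card {w : Fin l → J // w ∘ σ = w}) ^ 2 ≤
      (l + 1) ^ (Fintype.card J ^ 2) * l.factorial := by
  classical
  letI := act l (J × J)
  letI : Fintype (Quotient (MulAction.orbitRel (Equiv.Perm (Fin l)) (Fin l → J × J))) :=
    Fintype.ofFinite _
  have hb := MulAction.sum_card_fixedBy_eq_card_orbits_mul_card_group
    (Equiv.Perm (Fin l)) (Fin l → J × J)
  have h1 : ∀ σ : Equiv.Perm (Fin l), (Fintype.card {w : Fin l → J // w ∘ σ = w}) ^ 2 =
      Fintype.card (MulAction.fixedBy (Fin l → J × J) (σ⁻¹)) := by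
    intro σ
    have e : {w : Fin l → J // w ∘ σ = w} × {w : Fin l → J // w ∘ σ = w} ≃
        MulAction.fixedBy (Fin l → J × J) (σ⁻¹) :=
      { toFun := fun w => ⟨fun a => (w.1.1 a, w.2.1 a), by
          rw [MulAction.mem_fixedBy]
          funext a
          change ((w.1.1 (σ⁻¹⁻¹ • a)), (w.2.1 (σ⁻¹⁻¹ • a))) = _
          rw [inv_inv]
          exact Prod.ext (congrFun w.1.2 a) (congrFun w.2.2 a)⟩
        invFun := fun w => (⟨fun a => (w.1 a).1, by
            have h := w.2
            rw [MulAction.mem_fixedBy] at h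
            funext a
            have h2 := congrFun h a
            change w.1 (σ⁻¹⁻¹ • a) = w.1 a at h2
            rw [inv_inv] at h2
            exact congrArg Prod.fst h2⟩, ⟨fun a => (w.1 a).2, by
            have h := w.2
            rw [MulAction.mem_fixedBy] at h
            funext a
            have h2 := congrFun h a
            change w.1 (σ⁻¹⁻¹ • a) = w.1 a at h2
            rw [inv_inv] at h2
            exact congrArg Prod.snd h2⟩)
        left_inv := fun w => rfl
        right_inv := fun w => rfl }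
    rw [sq, ← Fintype.card_prod]
    exact Fintype.card_congr e
  have h2 : ∑ σ : Equiv.Perm (Fin l), (Fintype.card {w : Fin l → J // w ∘ σ = w}) ^ 2 =
      ∑ σ : Equiv.Perm (Fin l), Fintype.card (MulAction.fixedBy (Fin l → J × J) σ) := by
    rw [← Equiv.sum_comp (Equiv.inv (Equiv.Perm (Fin l)))]
    refine sum_congr rfl fun σ _ => ?_
    rw [h1]
    simp only [Equiv.inv_apply, inv_inv]
  rw [h2, hb, Fintype.card_perm, Fintype.card_fin]
  refine Nat.mul_le_mul_right _ ?_
  -- the orbits are determined by the numbers of occurrences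
  let cnt : (Fin l → J × J) → (J × J → Fin (l + 1)) := fun w j =>
    ⟨Fintype.card {a // w a = j}, by
      have := Fintype.card_subtype_le (fun a => w a = j)
      rw [Fintype.card_fin] at this
      omega⟩
  have h3 : ∀ w w' : Fin l → J × J, cnt w = cnt w' →
      MulAction.orbitRel (Equiv.Perm (Fin l)) (Fin l → J × J) w w' := by
    intro w w' h
    have e : ∀ j, Nonempty ({a // w a = j} ≃ {a // w' a = j}) := by
      intro j
      have hj := congrArg Fin.val (congrFun h j)
      exact ⟨Fintype.equivOfCardEq hj⟩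
    let σ : Equiv.Perm (Fin l) := Equiv.ofFiberEquiv fun j => (e j).some
    have hσ : ∀ a, w' (σ a) = w a := fun a => Equiv.ofFiberEquiv_map _ a
    rw [MulAction.orbitRel_apply]
    refine ⟨σ⁻¹, ?_⟩
    funext a
    change w' (σ⁻¹⁻¹ • a) = w a
    rw [inv_inv]
    exact hσ a
  have h4 : Fintype.card (Quotient (MulAction.orbitRel (Equiv.Perm (Fin l)) (Fin l → J × J))) ≤
      Fintype.card (J × J → Fin (l + 1)) := by
    refine Fintype.card_le_of_injective (fun q => cnt q.out) fun q q' h => ?_
    have h5 := h3 _ _ h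
    rw [← Quotient.out_eq q, ← Quotient.out_eq q']
    exact Quotient.sound h5
  refine h4.trans (le_of_eq ?_)
  rw [Fintype.card_fun, Fintype.card_prod, Fintype.card_fin, sq]

/-- A group of signed permutations of the words of length `l` in an alphabet with `b` letters: the
operators span a space of dimension at least `b ^ (2 l)` up to a polynomial factor. -/
theorem gro {K M J : Type*} [Field K] [CharZero K] [AddCommGroup M] [Module K M] [Fintype J]
    (l : ℕ) (b : Module.Basis (Fin l → J) K M) (ρ : Equiv.Perm (Fin l) → M →ₗ[K] M)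
    (hs : ∀ σ w, ρ σ (b w) = b (w ∘ σ) ∨ ρ σ (b w) = -b (w ∘ σ)) :
    Fintype.card J ^ (2 * l) ≤
      Module.finrank K (Submodule.span K (Set.range ρ)) * (l + 1) ^ (Fintype.card J ^ 2) := by
  classical
  have hε : ∀ σ w, ∃ ε : ℤ, (ε = 1 ∨ ε = -1) ∧ ρ σ (b w) = (ε : K) • b (w ∘ σ) := by
    intro σ w
    rcases hs σ w with h | h
    · exact ⟨1, Or.inl rfl, by rw [h, Int.cast_one, one_smul]⟩
    · exact ⟨-1, Or.inr rfl, by rw [h, Int.cast_neg, Int.cast_one, neg_smul, one_smul]⟩
  choose ε hε1 hε2 using hε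
  let V : Equiv.Perm (Fin l) → ((Fin l → J) × (Fin l → J)) → ℤ := fun σ p =>
    if p.2 ∘ σ = p.1 then ε σ p.2 else 0
  have hin : ∀ σ τ, ∑ p, V σ p * V τ p =
      ∑ w : Fin l → J, if w ∘ σ = w ∘ τ then ε σ w * ε τ w else 0 := by
    intro σ τ
    rw [Fintype.sum_prod_type_right]
    refine sum_congr rfl fun w _ => ?_
    simp only [V, ite_mul, zero_mul]
    rw [sum_ite_eq univ (w ∘ σ)]
    simp only [mem_univ, if_true, mul_ite, mul_zero]
    refine if_congr ⟨fun h => h.symm, fun h => h.symm⟩ rfl rfl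
  have hself : ∀ σ, ∑ p, V σ p * V σ p = (Fintype.card J : ℤ) ^ l := by
    intro σ
    rw [hin]
    have h1 : ∀ w : Fin l → J, (if w ∘ σ = w ∘ σ then ε σ w * ε σ w else 0) = (1 : ℤ) := by
      intro w
      rw [if_pos rfl]
      rcases hε1 σ w with h | h <;> rw [h] <;> norm_num
    rw [sum_congr rfl fun w _ => h1 w, sum_const, card_univ, Fintype.card_fun, Fintype.card_fin]
    simp
  have hle : ∀ σ τ, |∑ p, V σ p * V τ p| ≤
      (Fintype.card {w : Fin l → J // w ∘ (σ * τ⁻¹ : Equiv.Perm (Fin l)) = w} : ℤ) := by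
    intro σ τ
    rw [hin, Fintype.card_subtype, ← sum_filter]
    refine (abs_sum_le_sum_abs _ _).trans ?_
    have h1 : ∀ w ∈ univ.filter (fun w : Fin l → J => w ∘ σ = w ∘ τ), |ε σ w * ε τ w| = 1 := by
      intro w _
      rcases hε1 σ w with h | h <;> rcases hε1 τ w with h' | h' <;> rw [h, h'] <;> norm_num
    rw [sum_congr rfl h1, sum_const, nsmul_eq_mul, mul_one]
    refine le_of_eq ?_
    congr 1
    congr 1
    ext w
    simp only [mem_filter, mem_univ, true_and]
    constructor
    · intro h
      funext a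
      have := congrFun h (τ⁻¹ a)
      simpa using this
    · intro h
      funext a
      have := congrFun h (τ a)
      simpa using this
  -- the real matrix
  set VR : Matrix ((Fin l → J) × (Fin l → J)) (Equiv.Perm (Fin l)) ℝ :=
    Matrix.of fun p σ => ((V σ p : ℤ) : ℝ) with hVR
  have hG : ∀ σ τ, (VRᵀ * VR) σ τ = ((∑ p, V σ p * V τ p : ℤ) : ℝ) := by
    intro σ τ
    rw [Matrix.mul_apply]
    push_cast
    rfl
  have ht1 : (VRᵀ * VR).trace = (l.factorial : ℝ) * (Fintype.card J : ℝ) ^ l := by
    rw [Matrix.trace]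
    simp only [Matrix.diag_apply]
    rw [sum_congr rfl fun σ _ => hG σ σ]
    rw [sum_congr rfl fun σ _ => by rw [hself σ]]
    rw [sum_const, card_univ, Fintype.card_perm, Fintype.card_fin]
    push_cast
    rw [nsmul_eq_mul]
  have ht2 : ((VRᵀ * VR) * (VRᵀ * VR)).trace ≤
      (l.factorial : ℝ) * ((l + 1 : ℝ) ^ (Fintype.card J ^ 2) * l.factorial) := by
    have h1 : ((VRᵀ * VR) * (VRᵀ * VR)).trace =
        ∑ τ : Equiv.Perm (Fin l), ∑ σ : Equiv.Perm (Fin l), ((∑ p, V σ p * V τ p : ℤ) : ℝ) ^ 2 := by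
      rw [Matrix.trace, sum_comm]
      simp only [Matrix.diag_apply]
      refine sum_congr rfl fun σ _ => ?_
      rw [Matrix.mul_apply]
      refine sum_congr rfl fun τ _ => ?_
      rw [hG, hG, sq]
      congr 2
      exact sum_congr rfl fun p _ => mul_comm _ _
    rw [h1]
    have h2 : ∀ τ : Equiv.Perm (Fin l),
        ∑ σ : Equiv.Perm (Fin l), ((∑ p, V σ p * V τ p : ℤ) : ℝ) ^ 2 ≤
          (l + 1 : ℝ) ^ (Fintype.card J ^ 2) * l.factorial := by
      intro τ
      have h3 : ∑ σ : Equiv.Perm (Fin l), ((∑ p, V σ p * V τ p : ℤ) : ℝ) ^ 2 ≤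
          ∑ σ : Equiv.Perm (Fin l),
            ((Fintype.card {w : Fin l → J // w ∘ (σ * τ⁻¹ : Equiv.Perm (Fin l)) = w} : ℕ) : ℝ) ^ 2 := by
        refine sum_le_sum fun σ _ => ?_
        rw [← sq_abs ((∑ p, V σ p * V τ p : ℤ) : ℝ)]
        refine pow_le_pow_left₀ (abs_nonneg _) ?_ 2
        exact_mod_cast hle σ τ
      refine h3.trans ?_
      have h4 := Equiv.sum_comp (Equiv.mulRight (τ⁻¹)) (fun σ : Equiv.Perm (Fin l) =>
        (Fintype.card {w : Fin l → J // w ∘ σ = w}) ^ 2)
      simp only [Equiv.coe_mulRight] at h4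
      have h5 : ∑ σ : Equiv.Perm (Fin l),
          (Fintype.card {w : Fin l → J // w ∘ (σ * τ⁻¹ : Equiv.Perm (Fin l)) = w}) ^ 2 ≤
          (l + 1) ^ (Fintype.card J ^ 2) * l.factorial := by
        refine le_trans (le_of_eq ?_) (sum_fixed_le l J)
        refine Eq.trans ?_ h4
        exact sum_congr rfl fun σ _ => congrArg (· ^ 2) (Fintype.card_congr (Equiv.refl _))
      exact_mod_cast h5
    refine (sum_le_sum fun τ _ => h2 τ).trans (le_of_eq ?_)
    rw [sum_const, card_univ, Fintype.card_perm, Fintype.card_fin, nsmul_eq_mul]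
  have hr : VR.rank ≤ Module.finrank K (Submodule.span K (Set.range ρ)) := by
    refine (rank_le (K := K) V).trans ?_
    -- the linear map from operators to vectors
    let φ : (M →ₗ[K] M) →ₗ[K] (((Fin l → J) × (Fin l → J)) → K) :=
      { toFun := fun f p => b.repr (f (b p.2)) p.1
        map_add' := fun f g => by funext p; simp
        map_smul' := fun c f => by funext p; simp }
    have h1 : ∀ σ, φ (ρ σ) = fun p => ((V σ p : ℤ) : K) := by
      intro σ
      funext p
      change b.repr (ρ σ (b p.2)) p.1 = _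
      rw [hε2, map_smul, Module.Basis.repr_self, Finsupp.smul_apply, Finsupp.single_apply,
        smul_eq_mul, mul_ite, mul_one, mul_zero]
      simp only [V]
      split_ifs <;> simp
    have h2 : Submodule.span K (Set.range fun σ => fun p => ((V σ p : ℤ) : K)) =
        (Submodule.span K (Set.range ρ)).map φ := by
      rw [Submodule.map_span, ← Set.range_comp]
      congr 1
      exact congrArg Set.range (funext fun σ => (h1 σ).symm)
    rw [h2]
    haveI : Module.Finite K M := Module.Finite.of_basis b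
    exact Submodule.finrank_map_le _ _
  have h1 := trace_sq_le VR
  rw [ht1] at h1
  have h2 : ((l.factorial : ℝ) * (Fintype.card J : ℝ) ^ l) ^ 2 ≤
      (Module.finrank K (Submodule.span K (Set.range ρ)) : ℝ) *
        ((l.factorial : ℝ) * ((l + 1 : ℝ) ^ (Fintype.card J ^ 2) * l.factorial)) := by
    refine h1.trans ?_
    refine mul_le_mul (by exact_mod_cast hr) ht2 ?_ (Nat.cast_nonneg _)
    have h1 : ((VRᵀ * VR) * (VRᵀ * VR)).trace =
        ∑ σ : Equiv.Perm (Fin l), ∑ τ : Equiv.Perm (Fin l), ((∑ p, V σ p * V τ p : ℤ) : ℝ) ^ 2 := by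
      rw [Matrix.trace]
      simp only [Matrix.diag_apply]
      refine sum_congr rfl fun σ _ => ?_
      rw [Matrix.mul_apply]
      refine sum_congr rfl fun τ _ => ?_
      rw [hG, hG, sq]
      congr 2
      exact sum_congr rfl fun p _ => mul_comm _ _
    rw [h1]
    exact sum_nonneg fun _ _ => sum_nonneg fun _ _ => sq_nonneg _
  have hf : (0 : ℝ) < (l.factorial : ℝ) := by exact_mod_cast l.factorial_pos
  have h3 : (Fintype.card J : ℝ) ^ (2 * l) ≤
      (Module.finrank K (Submodule.span K (Set.range ρ)) : ℝ) *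
        (l + 1 : ℝ) ^ (Fintype.card J ^ 2) := by
    have h4 : ((l.factorial : ℝ) ^ 2) * (Fintype.card J : ℝ) ^ (2 * l) ≤
        ((l.factorial : ℝ) ^ 2) * ((Module.finrank K (Submodule.span K (Set.range ρ)) : ℝ) *
        (l + 1 : ℝ) ^ (Fintype.card J ^ 2)) := by
      calc ((l.factorial : ℝ) ^ 2) * (Fintype.card J : ℝ) ^ (2 * l)
          = ((l.factorial : ℝ) * (Fintype.card J : ℝ) ^ l) ^ 2 := by rw [mul_pow, ← pow_mul, mul_comm l 2]
        _ ≤ _ := h2
        _ = _ := by ring
    exact le_of_mul_le_mul_left h4 (by positivity)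
  exact_mod_cast h3

end Pool.Agent.Helper10.ZP
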