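import Mathlib
import Pool.Agent.Helper10.ZO.Perfect
import Pool.Agent.Helper34.ZP.G6
import Pool.Agent.Helper59.ZO.Base

/-!
# Tate classes: algebraic correspondences and Poincaré duality
-/

universe u v w

open CategoryTheory Finset

namespace Pool.Agent.Helper10.ZP

open Pool.Agent.Helper10 Pool.Agent.Helper11 SmProjVar SPre Pool.Agent.Helper59.ZO
  Pool.Agent.Helper34.ZP Pool.Agent.Helper11.Iso

variable {k : Type u} [Field k] {K : Type v} [Field K] [CharZero K]
  (W : WeilCohomology.{u, v, w} k K)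

/-- an element which is orthogonal to the elements of the wrong degrees is homogeneous -/
lemma mem_gr_of_tr {Y : SmProjVar k} {x : W.H Y} {e : ℕ}
    (h : ∀ i, ∀ y ∈ W.gr Y i, i + e ≠ 2 * Y.dim → W.trL Y (x * y) = 0) : x ∈ W.gr Y e := by
  classical
  have hx : x ∈ ⨆ i, W.gr Y i := by rw [W.iSup_gr]; trivial
  obtain ⟨f, hf, hfx⟩ := (Submodule.mem_iSup_iff_exists_finsupp _ _).mp hx
  have h0 : ∀ i, i ≠ e → f i = 0 := by
    intro i hi
    refine (W.trace Y).nondegenerate _ fun y => ?_
    refine W.gr_induction Y (p := fun y => W.trL Y (f i * y) = 0) ?_ ?_ ?_ y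
    · intro m y hy
      by_cases hm : i + m = 2 * Y.dim
      · have h1 := h m y hy (by omega)
        rw [← hfx, Finsupp.sum, sum_mul, map_sum] at h1
        by_cases hi' : i ∈ f.support
        · rw [sum_eq_single_of_mem i hi'] at h1
          · exact h1
          · intro j _ hj
            exact W.tr_eq_zero_of_gr Y (i := j + m) (by omega) (W.gr_mul Y (hf j) hy)
        · rw [Finsupp.notMem_support_iff.mp hi', zero_mul, map_zero]
      · exact W.tr_eq_zero_of_gr Y hm (W.gr_mul Y (hf i) hy)
    · rw [mul_zero, map_zero]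
    · intro a b ha hb
      rw [mul_add, map_add, ha, hb, add_zero]
  have h1 : x = f e := by
    rw [← hfx, Finsupp.sum]
    by_cases he : e ∈ f.support
    · exact sum_eq_single_of_mem e he fun j _ hj => h0 j hj
    · rw [Finsupp.notMem_support_iff.mp he]
      exact sum_eq_zero fun j hj => h0 j (by rintro rfl; exact he hj)
  rw [h1]
  exact hf e

/-- the operator of a class on a product -/
noncomputable def opW {Y Y' : SmProjVar k} (c : W.H (Y.prod Y')) : W.H Y →ₗ[K] W.H Y' :=
  op (P := base W) c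

lemma tr_op {Y Y' : SmProjVar k} (c : W.H (Y.prod Y')) (u : W.H Y) (y : W.H Y') :
    W.trL Y' (opW W c u * y) =
      W.trL (Y.prod Y') (W.pullA (fst Y Y') u * c * W.pullA (snd Y Y') y) :=
  SPre.tr_pushF (base W) (snd Y Y') (W.pullA (fst Y Y') u * c : W.H (Y.prod Y')) y

/-- degrees -/
lemma op_mem_gr {Y Y' : SmProjVar k} {a b e : ℕ} {c : W.H (Y.prod Y')} {u : W.H Y}
    (hu : u ∈ W.gr Y a) (hc : c ∈ W.gr (Y.prod Y') b) (h : a + b = e + 2 * Y.dim) :
    opW W c u ∈ W.gr Y' e := by
  refine mem_gr_of_tr W fun i y hy hi => ?_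
  rw [tr_op]
  have hd : (Y.prod Y').dim = Y'.dim + Y.dim := rfl
  refine W.tr_eq_zero_of_gr _ (i := a + b + i) (by omega) ?_
  exact W.gr_mul _ (W.gr_mul _ ((W.pull_hom _).map_mem _ _ hu) hc) ((W.pull_hom _).map_mem _ _ hy)

lemma op_eq_zero {Y Y' : SmProjVar k} {a b : ℕ} {c : W.H (Y.prod Y')} {u : W.H Y}
    (hu : u ∈ W.gr Y a) (hc : c ∈ W.gr (Y.prod Y') b) (h : a + b < 2 * Y.dim) :
    opW W c u = 0 := by
  have hd : (Y.prod Y').dim = Y'.dim + Y.dim := rfl
  refine (W.trace Y').nondegenerate _ fun y => ?_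
  refine W.gr_induction Y' (p := fun y => W.trL Y' (opW W c u * y) = 0) ?_ ?_ ?_ y
  · intro i y hy
    by_cases hi : 2 * Y'.dim < i
    · have h1 := (W.graded Y').eq_bot i hi
      rw [h1] at hy
      rw [(Submodule.mem_bot K).mp hy, mul_zero, map_zero]
    · rw [tr_op]
      refine W.tr_eq_zero_of_gr _ (i := a + b + i) (by omega) ?_
      exact W.gr_mul _ (W.gr_mul _ ((W.pull_hom _).map_mem _ _ hu) hc)
        ((W.pull_hom _).map_mem _ _ hy)
  · rw [mul_zero, map_zero]
  · intro a b ha hb
    rw [mul_add, map_add, ha, hb, add_zero]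

variable [Finite k]

/-- Frobenius and algebraic correspondences -/
lemma frob_op {Y Y' : SmProjVar k} {i : ℕ} {c : W.H (Y.prod Y')}
    (hc : W.pullA (frob (Y.prod Y')) c = (Nat.card k : K) ^ i • c) (u : W.H Y) :
    (Nat.card k : K) ^ Y.dim • W.pullA (frob Y') (opW W c u) =
      (Nat.card k : K) ^ i • opW W c (W.pullA (frob Y) u) := by
  rw [← sub_eq_zero]
  refine (W.trace Y').nondegenerate _ fun z => ?_
  obtain ⟨y, rfl⟩ := Zt.pull_frob_surjective W Y' z
  change W.trL Y' _ = 0
  have hd : (Y.prod Y').dim = Y'.dim + Y.dim := rfl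
  rw [sub_mul, map_sub, sub_eq_zero, smul_mul_assoc, smul_mul_assoc, map_smul, map_smul,
    ← map_mul (W.pullA (frob Y')), Zt.tr_frob, tr_op, tr_op]
  have h1 := Zt.tr_frob W (Y.prod Y') (W.pullA (fst Y Y') u * c * W.pullA (snd Y Y') y)
  have h2 : W.pullA (frob (Y.prod Y')) (W.pullA (fst Y Y') u) =
      W.pullA (fst Y Y') (W.pullA (frob Y) u) := by
    have e1 := W.pull_comp (frob (Y.prod Y')) (fst Y Y') u
    have e2 := W.pull_comp (fst Y Y') (frob Y) u
    rw [frob_comp] at e1
    exact e1.symm.trans e2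
  have h3 : W.pullA (frob (Y.prod Y')) (W.pullA (snd Y Y') y) =
      W.pullA (snd Y Y') (W.pullA (frob Y') y) := by
    have e1 := W.pull_comp (frob (Y.prod Y')) (snd Y Y') y
    have e2 := W.pull_comp (snd Y Y') (frob Y') y
    rw [frob_comp] at e1
    exact e1.symm.trans e2
  rw [map_mul (W.pullA _), map_mul (W.pullA _), hc, h2, h3, mul_smul_comm, smul_mul_assoc,
    map_smul, hd, pow_add] at h1
  rw [smul_eq_mul] at h1 ⊢
  rw [smul_eq_mul, h1]
  ring

/-- the combinations of Tate classes -/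
def tateV (Y : SmProjVar k) : Submodule K (W.H Y) :=
  Submodule.span K {u : W.H Y | ∃ j, IsTate W.toCohomologyData Y j u}

/-- algebraic classes are combinations of Tate classes -/
theorem alg_le_tateV (Y : SmProjVar k) : (base W).alg Y ≤ tateV W Y := by
  change W.algClasses Y ≤ tateV W Y
  unfold CohomologyData.algClasses
  refine Submodule.span_le.mpr ?_
  rintro _ ⟨j, c, rfl⟩
  refine Submodule.subset_span ⟨j, W.cycleClasses.cy_mem Y j c, 1, ?_⟩
  exact sub_eq_zero.mpr (Zt.pull_frob_cy W Y j c)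

lemma isTate_op {Y Y' : SmProjVar k} {i j : ℕ} {c : W.H (Y.prod Y')}
    (hc : W.pullA (frob (Y.prod Y')) c = (Nat.card k : K) ^ i • c)
    (hci : c ∈ W.gr (Y.prod Y') (2 * i)) {u : W.H Y} (hu : IsTate W.toCohomologyData Y j u) :
    opW W c u ∈ tateV W Y' := by
  obtain ⟨hu1, N, hN⟩ := (isTate_iff W).mp hu
  by_cases hij : j + i < Y.dim
  · rw [op_eq_zero W hu1 hci (by omega)]
    exact Submodule.zero_mem _
  obtain ⟨e, he⟩ := Nat.exists_eq_add_of_le (not_lt.mp hij)
  have hq : (Nat.card k : K) ≠ 0 := Zt.card_ne_zero'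
  refine Submodule.subset_span ⟨e, (isTate_iff W).mpr ⟨op_mem_gr W hu1 hci (by omega), N, ?_⟩⟩
  have h1 : ∀ x : W.H Y, (Nat.card k : K) ^ Y.dim •
      frS W Y' ((Nat.card k : K) ^ e) (opW W c x) =
        (Nat.card k : K) ^ i • opW W c (frS W Y ((Nat.card k : K) ^ j) x) := by
    intro x
    have h2 := frob_op W hc x
    have h3 : (Nat.card k : K) ^ Y.dim * (Nat.card k : K) ^ e =
        (Nat.card k : K) ^ i * (Nat.card k : K) ^ j := by
      rw [← pow_add, ← pow_add, ← he, add_comm]
    have h4 : opW W c (frS W Y ((Nat.card k : K) ^ j) x) =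
        opW W c (W.pullA (frob Y) x) -
          (Nat.card k : K) ^ j • opW W c x := by
      rw [frS_apply]
      exact (map_sub (opW W c) _ _).trans
        (congrArg (_ - ·) (map_smul (opW W c) _ _))
    rw [frS_apply, h4, smul_sub, smul_sub, h2]
    congr 1
    exact (smul_smul _ _ _).trans ((congrArg (· • opW W c x) h3).trans
      (smul_smul _ _ _).symm)
  have h2 : ∀ (m : ℕ) (x : W.H Y), ((Nat.card k : K) ^ Y.dim) ^ m •
      (frS W Y' ((Nat.card k : K) ^ e) ^ m) (opW W c x) =
        ((Nat.card k : K) ^ i) ^ m • opW W c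
          ((frS W Y ((Nat.card k : K) ^ j) ^ m) x) := by
    intro m
    induction m with
    | zero => intro x; simp
    | succ m ih =>
      intro x
      have h3 : (frS W Y' ((Nat.card k : K) ^ e) ^ (m + 1)) (opW W c x) =
          (frS W Y' ((Nat.card k : K) ^ e) ^ m) (frS W Y' ((Nat.card k : K) ^ e)
            (opW W c x)) := by
        rw [pow_succ, Module.End.mul_apply]
      have h4 : (frS W Y ((Nat.card k : K) ^ j) ^ (m + 1)) x =
          (frS W Y ((Nat.card k : K) ^ j) ^ m) (frS W Y ((Nat.card k : K) ^ j) x) := by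
        rw [pow_succ, Module.End.mul_apply]
      rw [h3, h4, pow_succ, mul_smul, ← map_smul, h1, map_smul, smul_comm, ih, smul_smul,
        pow_succ ((Nat.card k : K) ^ i) m, mul_comm]
  have h3 := h2 N u
  rw [hN] at h3
  have h4 : opW W c (0 : W.H Y) = 0 := map_zero (opW W c)
  rw [h4, smul_zero] at h3
  exact (smul_eq_zero.mp h3).resolve_left (pow_ne_zero _ (pow_ne_zero _ hq))

omit [Finite k] in
lemma opW_add {Y Y' : SmProjVar k} (c d : W.H (Y.prod Y')) : opW W (c + d) = opW W c + opW W d :=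
  op_add (P := base W) c d

omit [Finite k] in
lemma opW_smul {Y Y' : SmProjVar k} (a : K) (c : W.H (Y.prod Y')) :
    opW W (a • c) = a • opW W c := op_smul (P := base W) a c

omit [Finite k] in
lemma opW_zero {Y Y' : SmProjVar k} : opW W (0 : W.H (Y.prod Y')) = 0 := op_zero (P := base W)

lemma opW_mem {Y Y' : SmProjVar k} {c : W.H (Y.prod Y')} (hc : c ∈ W.algClasses (Y.prod Y'))
    {u : W.H Y} (hu : u ∈ tateV W Y) : opW W c u ∈ tateV W Y' := by
  unfold CohomologyData.algClasses at hc
  induction hc using Submodule.span_induction with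
  | mem c hc =>
    obtain ⟨i, z, rfl⟩ := hc
    unfold tateV at hu
    induction hu using Submodule.span_induction with
    | mem u hu =>
      obtain ⟨j, hj⟩ := hu
      exact isTate_op W (Zt.pull_frob_cy W _ i z) (W.cycleClasses.cy_mem _ i z) hj
    | zero => rw [map_zero]; exact Submodule.zero_mem _
    | add a b _ _ ha hb => rw [map_add]; exact Submodule.add_mem _ ha hb
    | smul r a _ ha => rw [map_smul]; exact Submodule.smul_mem _ _ ha
  | zero => rw [opW_zero, LinearMap.zero_apply]; exact Submodule.zero_mem _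
  | add a b _ _ ha hb => rw [opW_add, LinearMap.add_apply]; exact Submodule.add_mem _ ha hb
  | smul r a _ ha => rw [opW_smul, LinearMap.smul_apply]; exact Submodule.smul_mem _ _ ha

/-- algebraic correspondences map Tate classes to Tate classes -/
theorem mor_tateV {Y Y' : SmProjVar k} {f : (base W).H Y →ₗ[K] (base W).H Y'}
    (hf : f ∈ Mor (base W) Y Y') {u : W.H Y} (hu : u ∈ tateV W Y) : f u ∈ tateV W Y' := by
  obtain ⟨c, hc, rfl⟩ := g6_isMap_op (P := base W) hf
  exact opW_mem W hc hu

/-- the homogeneous components of combinations of Tate classes -/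
lemma exists_parts_tateV {Y : SmProjVar k} {y : W.H Y} (hy : y ∈ tateV W Y) :
    ∃ t : ℕ → W.H Y, (∀ j, IsTate W.toCohomologyData _ j (t j)) ∧
      y = ∑ j ∈ range (Y.dim + 1), t j := by
  unfold tateV at hy
  induction hy using Submodule.span_induction with
  | mem y hy =>
    obtain ⟨j, hj⟩ := hy
    refine ⟨fun i => if i = j then y else 0, fun i => ?_, ?_⟩
    · by_cases h : i = j
      · subst h
        simp only [if_true]
        exact hj
      · simp only [h, if_false]
        exact isTate_zero W _ i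
    · rw [sum_ite_eq' (range (Y.dim + 1)) j fun _ => y]
      split_ifs with h
      · rfl
      · have h1 := hj.1
        rw [mem_range, not_lt] at h
        have h2 : W.toCohomologyData.gr Y (2 * j) = ⊥ :=
          (W.graded Y).eq_bot (2 * j) (by omega)
        rw [h2] at h1
        exact (Submodule.mem_bot K).mp h1
  | zero => exact ⟨fun _ => 0, fun j => isTate_zero W _ j, by rw [sum_const_zero]⟩
  | add a a' _ _ ha ha' =>
    obtain ⟨t, ht, rfl⟩ := ha
    obtain ⟨t', ht', rfl⟩ := ha'
    exact ⟨fun j => t j + t' j, fun j => isTate_add W (ht j) (ht' j), by rw [sum_add_distrib]⟩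
  | smul a x _ hx =>
    obtain ⟨t, ht, rfl⟩ := hx
    exact ⟨fun j => a • t j, fun j => isTate_smul W a (ht j), by rw [smul_sum]⟩

/-- **The pairing is perfect on the Tate classes.** -/
theorem tateV_nondeg (Y : SmProjVar k) {x : W.H Y} (hx : x ∈ tateV W Y)
    (h : ∀ y ∈ tateV W Y, (base W).tr Y (x * y) = 0) : x = 0 := by
  have hfin : Module.Finite K (W.H Y) := (W.graded _).finite
  obtain ⟨t, ht, rfl⟩ := exists_parts_tateV W hx
  refine sum_eq_zero fun j hj => (W.trace _).nondegenerate _ fun w => ?_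
  refine W.gr_induction _ (p := fun w => W.trL Y (t j * w) = 0)
    (fun i w hw => ?_) ?_ ?_ w
  · by_cases hi : 2 * j + i = 2 * Y.dim
    · have hjD : j ≤ Y.dim := by omega
      obtain rfl : i = 2 * (Y.dim - j) := by omega
      obtain ⟨htj, N, hN⟩ := (isTate_iff W).mp (ht j)
      obtain ⟨m, hm, a, ha, c, ha0, rfl⟩ := exists_fitting
        (frS W Y ((Nat.card k : K) ^ (Y.dim - j)))
        (W.gr Y (2 * (Y.dim - j)))
        (fun x hx => Submodule.sub_mem _ ((W.pull_hom _).map_mem _ _ hx)
          (Submodule.smul_mem _ _ hx)) hw N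
      have hc : W.trL Y (t j * (frS W Y
          ((Nat.card k : K) ^ (Y.dim - j)) ^ m) c) = 0 := by
        refine trL_mul_frS_pow W hjD m _ _ ?_
        obtain ⟨l, rfl⟩ := Nat.exists_eq_add_of_le hm
        rw [add_comm, pow_add, Module.End.mul_apply, hN, map_zero]
      have haT : IsTate W.toCohomologyData _ (Y.dim - j) a :=
        (isTate_iff W).mpr ⟨ha, m, ha0⟩
      have h1 : W.trL Y ((∑ j ∈ range (Y.dim + 1), t j) * a) = 0 :=
        h a (Submodule.subset_span ⟨Y.dim - j, haT⟩)
      rw [sum_mul, map_sum, sum_eq_single_of_mem j hj] at h1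
      · rw [mul_add, map_add, h1, hc, add_zero]
      · intro i _ hij
        refine W.tr_eq_zero_of_gr _ (i := 2 * i + 2 * (Y.dim - j)) (by omega) ?_
        exact (W.graded _).mul_mem _ _ _ _ (ht i).1 haT.1
    · exact W.tr_eq_zero_of_gr _ hi ((W.graded _).mul_mem _ _ _ _ (ht j).1 hw)
  · rw [mul_zero, map_zero]
  · intro a b ha hb
    rw [mul_add, map_add, ha, hb, add_zero]

end Pool.Agent.Helper10.ZP
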