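import Mathlib
import Pool.Agent.Helper10.ZP.TateV

/-!
# The filtration of the Tate classes by the order of nilpotency
-/

universe u v w

open CategoryTheory Finset

namespace Pool.Agent.Helper10.ZP

open Pool.Agent.Helper10 Pool.Agent.Helper11 SmProjVar SPre Pool.Agent.Helper59.ZO
  Pool.Agent.Helper34.ZP Pool.Agent.Helper11.Iso

variable {k : Type u} [Field k] [Finite k] {K : Type v} [Field K] [CharZero K]
  (W : WeilCohomology.{u, v, w} k K)

/-- the combinations of the classes which are annihilated by the `i`-th powers of the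
operators `F - q ^ j` -/
def tateI (i : ℕ) (Y : SmProjVar k) : Submodule K (W.H Y) :=
  Submodule.span K {u : W.H Y | ∃ j, u ∈ W.gr Y (2 * j) ∧
    (frS W Y ((Nat.card k : K) ^ j) ^ i) u = 0}

theorem alg_le_tateI {i : ℕ} (hi : 1 ≤ i) (Y : SmProjVar k) : (base W).alg Y ≤ tateI W i Y := by
  change W.algClasses Y ≤ tateI W i Y
  unfold CohomologyData.algClasses
  refine Submodule.span_le.mpr ?_
  rintro _ ⟨j, c, rfl⟩
  refine Submodule.subset_span ⟨j, W.cycleClasses.cy_mem Y j c, ?_⟩
  obtain ⟨l, rfl⟩ := Nat.exists_eq_add_of_le hi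
  rw [add_comm, pow_add, Module.End.mul_apply, pow_one]
  have h : frS W Y ((Nat.card k : K) ^ j) (W.cy Y j c) = 0 :=
    sub_eq_zero.mpr (Zt.pull_frob_cy W Y j c)
  rw [h, map_zero]

theorem tateI_mono {i i' : ℕ} (h : i ≤ i') (Y : SmProjVar k) : tateI W i Y ≤ tateI W i' Y := by
  refine Submodule.span_mono ?_
  rintro u ⟨j, hj, hu⟩
  refine ⟨j, hj, ?_⟩
  obtain ⟨l, rfl⟩ := Nat.exists_eq_add_of_le h
  rw [add_comm, pow_add, Module.End.mul_apply, hu, map_zero]

theorem tateI_le_tateV (i : ℕ) (Y : SmProjVar k) : tateI W i Y ≤ tateV W Y := by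
  refine Submodule.span_mono ?_
  rintro u ⟨j, hj, hu⟩
  exact ⟨j, (isTate_iff W).mpr ⟨hj, i, hu⟩⟩

/-- Frobenius and the operators of algebraic classes -/
lemma frS_pow_op {Y Y' : SmProjVar k} {i j e : ℕ} {c : W.H (Y.prod Y')}
    (hc : W.pullA (frob (Y.prod Y')) c = (Nat.card k : K) ^ i • c) (he : j + i = Y.dim + e)
    (m : ℕ) : ∀ x : W.H Y, ((Nat.card k : K) ^ Y.dim) ^ m •
      (frS W Y' ((Nat.card k : K) ^ e) ^ m) (opW W c x) =
        ((Nat.card k : K) ^ i) ^ m • opW W c ((frS W Y ((Nat.card k : K) ^ j) ^ m) x) := by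
  have h1 : ∀ x : W.H Y, (Nat.card k : K) ^ Y.dim •
      frS W Y' ((Nat.card k : K) ^ e) (opW W c x) =
        (Nat.card k : K) ^ i • opW W c (frS W Y ((Nat.card k : K) ^ j) x) := by
    intro x
    have h2 := frob_op W hc x
    have h3 : (Nat.card k : K) ^ Y.dim * (Nat.card k : K) ^ e =
        (Nat.card k : K) ^ i * (Nat.card k : K) ^ j := by
      rw [← pow_add, ← pow_add, ← he, add_comm]
    rw [frS_apply, frS_apply, map_sub, map_smul, smul_sub, smul_sub, h2, smul_smul, smul_smul, h3]
  induction m with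
  | zero => intro x; simp
  | succ m ih =>
    intro x
    have h3 : (frS W Y' ((Nat.card k : K) ^ e) ^ (m + 1)) (opW W c x) =
        (frS W Y' ((Nat.card k : K) ^ e) ^ m) (frS W Y' ((Nat.card k : K) ^ e)
          (opW W c x)) := by
      rw [pow_succ, Module.End.mul_apply]
    have h4 : (frS W Y ((Nat.card k : K) ^ j) ^ (m + 1)) x =
        (frS W Y ((Nat.card k : K) ^ j) ^ m) (frS W Y ((Nat.card k : K) ^ j) x) := by
      rw [pow_succ, Module.End.mul_apply]
    rw [h3, h4, pow_succ, mul_smul, ← map_smul, h1, map_smul, smul_comm, ih, smul_smul,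
      pow_succ ((Nat.card k : K) ^ i) m, mul_comm]

lemma opW_mem_tateI {Y Y' : SmProjVar k} {c : W.H (Y.prod Y')}
    (hc : c ∈ W.algClasses (Y.prod Y')) {i : ℕ} {u : W.H Y} (hu : u ∈ tateI W i Y) :
    opW W c u ∈ tateI W i Y' := by
  unfold CohomologyData.algClasses at hc
  induction hc using Submodule.span_induction with
  | mem c hc =>
    obtain ⟨s, z, rfl⟩ := hc
    unfold tateI at hu
    induction hu using Submodule.span_induction with
    | mem u hu =>
      obtain ⟨j, hj, hu⟩ := hu
      by_cases hij : j + s < Y.dim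
      · rw [op_eq_zero W hj (W.cycleClasses.cy_mem _ s z) (by omega)]
        exact Submodule.zero_mem _
      obtain ⟨e, he⟩ := Nat.exists_eq_add_of_le (not_lt.mp hij)
      refine Submodule.subset_span ⟨e, op_mem_gr W hj (W.cycleClasses.cy_mem _ s z) (by omega), ?_⟩
      have h3 := frS_pow_op W (Zt.pull_frob_cy W _ s z) he i u
      rw [hu, map_zero, smul_zero] at h3
      exact (smul_eq_zero.mp h3).resolve_left (pow_ne_zero _ (pow_ne_zero _ Zt.card_ne_zero'))
    | zero => rw [map_zero]; exact Submodule.zero_mem _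
    | add a b _ _ ha hb => rw [map_add]; exact Submodule.add_mem _ ha hb
    | smul r a _ ha => rw [map_smul]; exact Submodule.smul_mem _ _ ha
  | zero => rw [opW_zero, LinearMap.zero_apply]; exact Submodule.zero_mem _
  | add a b _ _ ha hb => rw [opW_add, LinearMap.add_apply]; exact Submodule.add_mem _ ha hb
  | smul r a _ ha => rw [opW_smul, LinearMap.smul_apply]; exact Submodule.smul_mem _ _ ha

theorem mor_tateI (i : ℕ) {Y Y' : SmProjVar k} {f : (base W).H Y →ₗ[K] (base W).H Y'}
    (hf : f ∈ Mor (base W) Y Y') {u : W.H Y} (hu : u ∈ tateI W i Y) : f u ∈ tateI W i Y' := by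
  obtain ⟨c, hc, rfl⟩ := g6_isMap_op (P := base W) hf
  exact opW_mem_tateI W hc hu

/-- the homogeneous components -/
lemma exists_parts_tateI {i : ℕ} {Y : SmProjVar k} {y : W.H Y} (hy : y ∈ tateI W i Y) :
    ∃ t : ℕ → W.H Y, (∀ j, t j ∈ W.gr Y (2 * j) ∧ (frS W Y ((Nat.card k : K) ^ j) ^ i) (t j) = 0) ∧
      y = ∑ j ∈ range (Y.dim + 1), t j := by
  unfold tateI at hy
  induction hy using Submodule.span_induction with
  | mem y hy =>
    obtain ⟨j, hj, hy⟩ := hy
    refine ⟨fun i => if i = j then y else 0, fun i => ?_, ?_⟩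
    · by_cases h : i = j
      · subst h
        simp only [if_true]
        exact ⟨hj, hy⟩
      · simp only [h, if_false]
        exact ⟨Submodule.zero_mem _, map_zero _⟩
    · rw [sum_ite_eq' (range (Y.dim + 1)) j fun _ => y]
      split_ifs with h
      · rfl
      · rw [mem_range, not_lt] at h
        rw [(W.graded Y).eq_bot (2 * j) (by omega)] at hj
        exact (Submodule.mem_bot K).mp hj
  | zero => exact ⟨fun _ => 0, fun j => ⟨Submodule.zero_mem _, map_zero _⟩, by rw [sum_const_zero]⟩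
  | add a a' _ _ ha ha' =>
    obtain ⟨t, ht, rfl⟩ := ha
    obtain ⟨t', ht', rfl⟩ := ha'
    exact ⟨fun j => t j + t' j, fun j => ⟨Submodule.add_mem _ (ht j).1 (ht' j).1, by
      rw [map_add, (ht j).2, (ht' j).2, add_zero]⟩, by rw [sum_add_distrib]⟩
  | smul a x _ hx =>
    obtain ⟨t, ht, rfl⟩ := hx
    exact ⟨fun j => a • t j, fun j => ⟨Submodule.smul_mem _ _ (ht j).1, by
      rw [map_smul, (ht j).2, smul_zero]⟩, by rw [smul_sum]⟩

theorem mem_tateI_iff {i c : ℕ} {Y : SmProjVar k} {u : W.H Y} (hu : u ∈ W.gr Y (2 * c)) :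
    u ∈ tateI W i Y ↔ (frS W Y ((Nat.card k : K) ^ c) ^ i) u = 0 := by
  constructor
  · intro h
    obtain ⟨t, ht, htu⟩ := exists_parts_tateI W h
    by_cases hc : c ∈ range (Y.dim + 1)
    · have h1 : ∑ j ∈ range (Y.dim + 1), (t j - if j = c then u else 0) = 0 := by
        rw [sum_sub_distrib, ← htu, sum_ite_eq' (range (Y.dim + 1)) c fun _ => u, if_pos hc,
          sub_self]
      have h2 := eq_zero_of_sum W (y := fun j => t j - if j = c then u else 0) (fun j => by
        refine Submodule.sub_mem _ (ht j).1 ?_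
        split_ifs with h
        · rw [h]; exact hu
        · exact Submodule.zero_mem _) h1 c hc
      simp only [if_true] at h2
      rw [← sub_eq_zero.mp h2]
      exact (ht c).2
    · rw [mem_range, not_lt] at hc
      rw [(W.graded Y).eq_bot (2 * c) (by omega)] at hu
      rw [(Submodule.mem_bot K).mp hu, map_zero]
  · intro h
    exact Submodule.subset_span ⟨c, hu, h⟩

end Pool.Agent.Helper10.ZP
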