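import Mathlib
import Pool.Agent.Helper34.ZP.P2b
import Pool.Agent.Helper34.ZP.G1

/-!
# Stable subspaces and idempotents
-/

universe u v w t

open CategoryTheory

namespace Pool.Agent.Helper34.ZP

open Pool.Agent.Helper10 Pool.Agent.Helper11.Iso SmProjVar SPre

section Linear

variable {F U W₁ W₂ : Type*} [Field F] [AddCommGroup U] [Module F U] [AddCommGroup W₁]
  [Module F W₁] [AddCommGroup W₂] [Module F W₂]

lemma q1_rank_nullity [Module.Finite F U] (S : Submodule F U) (f : U →ₗ[F] W₁) :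
    Module.finrank F (S.map f) + Module.finrank F (S ⊓ LinearMap.ker f : Submodule F U) =
      Module.finrank F S := by
  have h1 := LinearMap.finrank_range_add_finrank_ker (f.domRestrict S)
  have h2 : LinearMap.range (f.domRestrict S) = S.map f := by
    ext y
    constructor
    · rintro ⟨x, rfl⟩
      exact ⟨x, x.2, rfl⟩
    · rintro ⟨x, hx, rfl⟩
      exact ⟨⟨x, hx⟩, rfl⟩
  have h3 : (LinearMap.ker (f.domRestrict S)).map S.subtype = S ⊓ LinearMap.ker f := by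
    ext y
    constructor
    · rintro ⟨x, hx, rfl⟩
      exact ⟨x.2, hx⟩
    · rintro ⟨hy, hy'⟩
      exact ⟨⟨y, hy⟩, hy', rfl⟩
  have h4 : Module.finrank F (LinearMap.ker (f.domRestrict S)) =
      Module.finrank F (S ⊓ LinearMap.ker f : Submodule F U) := by
    rw [← h3]
    exact (Submodule.equivMapOfInjective _ S.injective_subtype _).finrank_eq
  rw [h2, h4] at h1
  exact h1

lemma q1_sup [Module.Finite F U] [Module.Finite F W₁] (S : Submodule F U) (φ : U →ₗ[F] W₁)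
    (ψ : U →ₗ[F] W₂) (A : Submodule F W₁) (h : ∀ T ∈ S, φ T ∈ A ↔ ψ T = 0) :
    Module.finrank F (A ⊔ S.map φ : Submodule F W₁) =
      Module.finrank F A + Module.finrank F (S.map ψ) := by
  have h1 := q1_rank_nullity (A ⊔ S.map φ) A.mkQ
  have h2 := q1_rank_nullity S (A.mkQ ∘ₗ φ)
  have h3 := q1_rank_nullity S ψ
  have h4 : (A ⊔ S.map φ).map A.mkQ = S.map (A.mkQ ∘ₗ φ) := by
    rw [Submodule.map_sup, Submodule.map_comp, Submodule.mkQ_map_self, bot_sup_eq]
  have h5 : (A ⊔ S.map φ) ⊓ LinearMap.ker A.mkQ = A := by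
    rw [Submodule.ker_mkQ, inf_eq_right]
    exact le_sup_left
  have h6 : S ⊓ LinearMap.ker (A.mkQ ∘ₗ φ) = S ⊓ LinearMap.ker ψ := by
    ext T
    constructor
    · rintro ⟨hT, hT'⟩
      exact ⟨hT, (h T hT).mp ((Submodule.Quotient.mk_eq_zero A).mp hT')⟩
    · rintro ⟨hT, hT'⟩
      exact ⟨hT, (Submodule.Quotient.mk_eq_zero A).mpr ((h T hT).mpr hT')⟩
  rw [h4, h5] at h1
  rw [h6] at h2
  omega

end Linear

variable {k : Type u} [Field k] {K : Type t} [Field K] {Ω : Type v} [Field Ω] [Algebra K Ω]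
  (P : SPre.{u, v, w, t} k K Ω)

/-- the span of the images of the elements of `M` under algebraic maps -/
def gen {Z : SmProjVar k} (M : Submodule Ω (P.H Z)) (Y : SmProjVar k) : Submodule Ω (P.H Y) :=
  Submodule.span Ω {x | ∃ T ∈ Mor P Z Y, ∃ t ∈ M, x = T t}

variable {P}

lemma gen_mono {Z Y : SmProjVar k} {M M' : Submodule Ω (P.H Z)} (h : M ≤ M') :
    gen P M Y ≤ gen P M' Y := by
  refine Submodule.span_mono ?_
  rintro _ ⟨T, hT, t, ht, rfl⟩
  exact ⟨T, hT, t, h ht, rfl⟩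

lemma apply_mem_gen {Z Y : SmProjVar k} {M : Submodule Ω (P.H Z)} {T : P.H Z →ₗ[Ω] P.H Y}
    (hT : T ∈ Mor P Z Y) {t : P.H Z} (ht : t ∈ M) : T t ∈ gen P M Y :=
  Submodule.subset_span ⟨T, hT, t, ht, rfl⟩

lemma gen_le {Z Y : SmProjVar k} {M : Submodule Ω (P.H Z)} {N : Submodule Ω (P.H Y)}
    (h : ∀ T ∈ Mor P Z Y, ∀ t ∈ M, T t ∈ N) : gen P M Y ≤ N := by
  refine Submodule.span_le.mpr ?_
  rintro _ ⟨T, hT, t, ht, rfl⟩
  exact h T hT t ht

/-- `gen P M Z = M` for stable `M` -/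
lemma gen_self {Z : SmProjVar k} {M : Submodule Ω (P.H Z)}
    (hM : ∀ T ∈ Mor P Z Z, ∀ t ∈ M, T t ∈ M) : gen P M Z = M :=
  le_antisymm (gen_le hM) fun x hx => apply_mem_gen (G1_id_mem Z) hx

lemma map_gen {Z Y Y' : SmProjVar k} {M : Submodule Ω (P.H Z)} {S : P.H Y →ₗ[Ω] P.H Y'}
    (hS : S ∈ Mor P Y Y') {x : P.H Y} (hx : x ∈ gen P M Y) : S x ∈ gen P M Y' := by
  unfold gen at hx
  induction hx using Submodule.span_induction with
  | mem x hx =>
    obtain ⟨T, hT, t, ht, rfl⟩ := hx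
    exact apply_mem_gen (G1_comp_mem hT hS) ht
  | zero => rw [map_zero]; exact Submodule.zero_mem _
  | add a b _ _ ha hb => rw [map_add]; exact Submodule.add_mem _ ha hb
  | smul r a _ ha => rw [map_smul]; exact Submodule.smul_mem _ _ ha

lemma exists_tr_ne_zero {Z : SmProjVar k} (h : 1 ≤ nr P Z) :
    ∃ p ∈ P.alg Z, P.tr Z p ≠ 0 := by
  by_contra h0
  have h1 : P.alg Z ≤ radS P Z := fun x hx => ⟨hx, fun a ha => by
    by_contra h2
    exact h0 ⟨_, P.mul_mem _ _ _ hx ha, h2⟩⟩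
  have h2 : P.alg Z ⊓ radS P Z = P.alg Z := inf_eq_left.mpr h1
  have h3 : nr P Z = Module.finrank Ω (P.alg Z) -
      Module.finrank Ω (P.alg Z ⊓ radS P Z : Submodule Ω (P.H Z)) := rfl
  rw [h2] at h3
  omega

lemma gen_alg {Z : SmProjVar k} (h : ∃ p ∈ P.alg Z, P.tr Z p ≠ 0) (Y : SmProjVar k) :
    gen P (P.alg Z) Y = P.alg Y := by
  obtain ⟨p, hp, hp0⟩ := h
  refine le_antisymm (gen_le fun T hT t ht => IsMap.map_alg hT ht) fun α hα => ?_
  have h1 : opL P Z Y (P.ext Z Y p α) ∈ Mor P Z Y := by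
    rw [← map_opL_alg]
    exact ⟨_, P.mul_mem _ _ _ (P.pull_mem _ _ hp) (P.pull_mem _ _ hα), rfl⟩
  have h2 := apply_mem_gen h1 (P.one_mem Z)
  rw [opL_apply, op_ext, one_mul] at h2
  have h3 := Submodule.smul_mem (gen P (P.alg Z) Y) (P.tr Z p)⁻¹ h2
  rwa [smul_smul, inv_mul_cancel₀ hp0, one_smul] at h3

/-- the property of the stable subspace `M` which is proved by induction -/
def Q1Prop {Z : SmProjVar k} (M : Submodule Ω (P.H Z)) : Prop :=
  ∃ (n : ℕ) (g : Fin n → P.H Z →ₗ[Ω] P.H Z),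
    (∀ i, g i ∈ Mor P Z Z ∧ g i ∘ₗ g i = g i ∧ g i ≠ 0) ∧ (n = 0 → M = P.alg Z) ∧
    ∀ Y, Nul P Z Y = ⊥ → Module.finrank Ω (gen P M Y) = hr P Y +
      ∑ i, Module.finrank Ω ((Mor P Z Y).map (precomp (g i)))

lemma q1_step [CharZero Ω] {Z : SmProjVar k} (hD : Nul P Z Z = ⊥) {M : Submodule Ω (P.H Z)}
    (hM : ∀ T ∈ Mor P Z Z, ∀ t ∈ M, T t ∈ M) (h : Q1Prop M) {t : P.H Z} (ht : t ∉ M) :
    Q1Prop (M ⊔ (Mor P Z Z).map (LinearMap.applyₗ t)) := by
  have := P.fin Z
  obtain ⟨n, g, hg, hg0, hgY⟩ := h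
  -- the left ideal
  let L : Submodule Ω (Module.End Ω (P.H Z)) :=
    (Subalgebra.toSubmodule (P.corrAlg Z)) ⊓ M.comap (LinearMap.applyₗ t)
  have hL : ∀ x, x ∈ L ↔ x ∈ Mor P Z Z ∧ x t ∈ M := fun x => Iff.rfl
  obtain ⟨e, heL, hee, -, hx⟩ := exists_idem_of_nil (P.corrAlg Z) (par P Z)
    (G1_par_par Z) (fun x hx => G1_par_comm (P := P) hx) (fun x hx => by
      rw [nul_corrAlg, hD, Submodule.mem_bot] at hx
      rw [hx]
      exact IsNilpotent.zero) L (fun x hx => hx.1)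
    (fun a ha x hx => ⟨(P.corrAlg Z).mul_mem ha hx.1, hM a ha _ hx.2⟩) (by
      rintro ⟨x, hx, y, hy, hxy⟩
      rw [nul_corrAlg, hD, Submodule.mem_bot] at hy
      rw [hy, add_zero] at hxy
      rw [hxy] at hx
      exact ht hx.2)
  have hx' : ∀ x ∈ L, x * e = x := by
    intro x hxL
    have h1 := hx x hxL
    rw [nul_corrAlg, hD, Submodule.mem_bot] at h1
    exact (sub_eq_zero.mp h1).symm
  let g' : P.H Z →ₗ[Ω] P.H Z := LinearMap.id - e
  have hg'1 : g' ∈ Mor P Z Z := Submodule.sub_mem _ (G1_id_mem Z) heL.1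
  have hg'2 : g' ∘ₗ g' = g' := by
    have h1 : e ∘ₗ e = e := hee
    change (LinearMap.id - e) ∘ₗ (LinearMap.id - e) = LinearMap.id - e
    rw [LinearMap.sub_comp, LinearMap.comp_sub, LinearMap.comp_sub, LinearMap.id_comp,
      LinearMap.comp_id, LinearMap.id_comp, h1]
    abel
  have hg'3 : g' ≠ 0 := by
    intro h0
    have h1 : e = LinearMap.id := (sub_eq_zero.mp h0).symm
    have h2 : e t ∈ M := heL.2
    rw [h1] at h2
    exact ht h2
  refine ⟨n + 1, Fin.cons g' g, ?_, fun h0 => absurd h0 (Nat.succ_ne_zero n), fun Y hY => ?_⟩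
  · intro i
    refine Fin.cases ?_ (fun j => ?_) i
    · rw [Fin.cons_zero]
      exact ⟨hg'1, hg'2, hg'3⟩
    · rw [Fin.cons_succ]
      exact hg j
  · have := P.fin Y
    have h1 : gen P (M ⊔ (Mor P Z Z).map (LinearMap.applyₗ t)) Y =
        gen P M Y ⊔ (Mor P Z Y).map (LinearMap.applyₗ t) := by
      refine le_antisymm (gen_le fun T hT s hs => ?_) (sup_le (gen_mono le_sup_left) ?_)
      · obtain ⟨m, hm, _, ⟨S, hS, rfl⟩, rfl⟩ := Submodule.mem_sup.mp hs
        rw [map_add]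
        refine Submodule.add_mem_sup (apply_mem_gen hT hm) ?_
        exact ⟨T ∘ₗ S, G1_comp_mem hS hT, rfl⟩
      · rintro _ ⟨T, hT, rfl⟩
        refine apply_mem_gen hT ?_
        exact Submodule.mem_sup_right ⟨LinearMap.id, G1_id_mem Z, rfl⟩
    have h2 : ∀ T ∈ Mor P Z Y, (LinearMap.applyₗ t T ∈ gen P M Y ↔ precomp g' T = 0) := by
      intro T hT
      change T t ∈ gen P M Y ↔ T ∘ₗ (LinearMap.id - e) = 0
      rw [LinearMap.comp_sub, LinearMap.comp_id, sub_eq_zero]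
      constructor
      · intro hTt
        have h3 : T - T ∘ₗ e ∈ Nul P Z Y := by
          refine ⟨Submodule.sub_mem _ hT (G1_comp_mem heL.1 hT), fun S hS => ?_⟩
          have h4 : S ∘ₗ T ∈ L := by
            refine ⟨G1_comp_mem hT hS, ?_⟩
            have h5 := map_gen hS hTt
            rw [gen_self hM] at h5
            exact h5
          have h5 : (S ∘ₗ T) ∘ₗ e = S ∘ₗ T := hx' _ h4
          have h6 : S ∘ₗ (T - T ∘ₗ e) = 0 := by
            rw [LinearMap.comp_sub, ← LinearMap.comp_assoc, h5, sub_self]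
          rw [← LinearMap.comp_assoc, h6, LinearMap.zero_comp, map_zero]
        rw [hY, Submodule.mem_bot] at h3
        exact sub_eq_zero.mp h3
      · intro h3
        rw [h3]
        exact apply_mem_gen hT heL.2
    rw [h1, q1_sup (Mor P Z Y) (LinearMap.applyₗ t) (precomp g') (gen P M Y) h2, hgY Y hY,
      Fin.sum_univ_succ]
    change _ = hr P Y + (Module.finrank Ω ((Mor P Z Y).map (precomp g')) +
      ∑ i, Module.finrank Ω ((Mor P Z Y).map (precomp (g i))))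
    ring

/-- **(Q1)** the dimensions of the spaces generated by a stable subspace -/
theorem q1 [CharZero Ω] {Z : SmProjVar k} (hpt : 1 ≤ nr P Z) (hD : Nul P Z Z = ⊥)
    (M : Submodule Ω (P.H Z)) (halg : P.alg Z ≤ M) (hM : ∀ T ∈ Mor P Z Z, ∀ t ∈ M, T t ∈ M) :
    ∃ (n : ℕ) (g : Fin n → P.H Z →ₗ[Ω] P.H Z),
      (∀ i, g i ∈ Mor P Z Z ∧ g i ∘ₗ g i = g i ∧ g i ≠ 0) ∧ (n = 0 → M = P.alg Z) ∧
      ∀ Y, Nul P Z Y = ⊥ → Module.finrank Ω (gen P M Y) = hr P Y +
        ∑ i, Module.finrank Ω ((Mor P Z Y).map (precomp (g i))) := by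
  have := P.fin Z
  have key : ∀ (d : ℕ) (M' : Submodule Ω (P.H Z)), M' ≤ M →
      (∀ T ∈ Mor P Z Z, ∀ t ∈ M', T t ∈ M') → Q1Prop M' →
      Module.finrank Ω M ≤ Module.finrank Ω M' + d → Q1Prop M := by
    intro d
    induction d with
    | zero =>
      intro M' hle _ h hd
      rw [← Submodule.eq_of_le_of_finrank_le hle (by omega)]
      exact h
    | succ d ih =>
      intro M' hle hst h hd
      by_cases hMM : M' = M
      · rw [← hMM]; exact h
      · obtain ⟨t, ht, ht'⟩ := SetLike.exists_of_lt (lt_of_le_of_ne hle hMM)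
        have hlt : M' < M' ⊔ (Mor P Z Z).map (LinearMap.applyₗ t) := by
          refine lt_of_le_of_ne le_sup_left fun h0 => ht' ?_
          rw [h0]
          exact Submodule.mem_sup_right ⟨LinearMap.id, G1_id_mem Z, rfl⟩
        refine ih (M' ⊔ (Mor P Z Z).map (LinearMap.applyₗ t)) ?_ ?_ (q1_step hD hst h ht') ?_
        · refine sup_le hle ?_
          rintro _ ⟨T, hT, rfl⟩
          exact hM T hT t ht
        · intro T hT s hs
          obtain ⟨m, hm, _, ⟨S, hS, rfl⟩, rfl⟩ := Submodule.mem_sup.mp hs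
          rw [map_add]
          exact Submodule.add_mem_sup (hst T hT m hm) ⟨T ∘ₗ S, G1_comp_mem hS hT, rfl⟩
        · have h1 := Submodule.finrank_lt_finrank_of_lt hlt
          omega
  refine key (Module.finrank Ω M) (P.alg Z) halg (fun T hT t ht => IsMap.map_alg hT ht) ?_
    (by omega)
  refine ⟨0, Fin.elim0, fun i => i.elim0, fun _ => rfl, fun Y _ => ?_⟩
  rw [gen_alg (exists_tr_ne_zero hpt), Finset.univ_eq_empty, Finset.sum_empty, add_zero]
  rfl

end Pool.Agent.Helper34.ZP
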