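import Mathlib
import Pool.Agent.Helper59.ZP.ZDefs
import Pool.Agent.Helper59.ZP.Sys
import Pool.Agent.Helper34.ZP.UHL

/-!
# The uniform half law, in terms of Weil cohomology theories
-/

universe u v w

open CategoryTheory Filter Topology

namespace Pool.Agent.Helper10.ZP

open Pool.Agent.Helper10 Pool.Agent.Helper11 SmProjVar Pool.Agent.Helper59.ZO
  Pool.Agent.Helper34.ZP Pool.Agent.Helper11.Iso Pool.Agent.Helper59.ZP

/-- **Uniform half law**, the pairing on `V m` is non-degenerate for the one `m` in question. -/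
theorem uniform_half_one (b r : ℕ) (ε : ℝ) (hε : 0 < ε) : ∃ m₀ : ℕ,
    ∀ (k : Type u) [Field k] (K : Type v) [Field K] [CharZero K]
      (W : WeilCohomology.{u, v, w} k K) (X : SmProjVar k), betti W.toCohomologyData X ≤ b →
        ∀ V : ∀ n : ℕ, Submodule K (W.H (X.selfProd n)), IsSystem W.toCohomologyData X V →
          ∀ m ≥ m₀, (∀ u ∈ V m, (∀ v ∈ V m, W.pairing (X.selfProd m) u v = 0) → u = 0) →
            (1 / 2 + ε) * Module.finrank K (V m) ≤ cycRank W.toCohomologyData (X.selfProd m) →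
              ∀ s ≤ r, W.StandardD (X.selfProd s) ∧ V s = W.algClasses (X.selfProd s) := by
  obtain ⟨m₀, h⟩ := Pool.Agent.Helper34.ZP.uniform_half_law.{u, v, w, v} b r hε
  refine ⟨m₀, ?_⟩
  intro k _ K _ _ W X hX V hV m hm hnd h1 s hs
  have h2 := h k K K (base W) (nr_base_pos W) X hX V (sys_mor hV) (sys_alg hV) m hm
    (fun x hx hy => hnd x hx fun v hv => hy v hv) (by rw [hr_base]; exact h1) s hs
  exact ⟨(d_base W _).mp h2.1, h2.2⟩

/-- **Uniform half law.** -/
theorem uniform_half (b r : ℕ) (ε : ℝ) (hε : 0 < ε) : ∃ m₀ : ℕ,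
    ∀ (k : Type u) [Field k] (K : Type v) [Field K] [CharZero K]
      (W : WeilCohomology.{u, v, w} k K) (X : SmProjVar k), betti W.toCohomologyData X ≤ b →
        ∀ V : ∀ n : ℕ, Submodule K (W.H (X.selfProd n)), IsPerfectSystem W.toCohomologyData X V →
          ∀ m ≥ m₀,
            (1 / 2 + ε) * Module.finrank K (V m) ≤ cycRank W.toCohomologyData (X.selfProd m) →
              ∀ s ≤ r, W.StandardD (X.selfProd s) ∧ V s = W.algClasses (X.selfProd s) := by
  obtain ⟨m₀, h⟩ := uniform_half_one.{u, v, w} b r ε hε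
  refine ⟨m₀, ?_⟩
  intro k _ K _ _ W X hX V hV m hm h1
  exact h k K W X hX V hV.toIsSystem m hm (hV.nondegenerate m) h1

/-- **Uniform law for all systems**, in terms of numerical equivalence. -/
theorem uniform_system (b r : ℕ) (ε : ℝ) (hε : 0 < ε) : ∃ m₀ : ℕ,
    ∀ (k : Type u) [Field k] (K : Type v) [Field K] [CharZero K]
      (W : WeilCohomology.{u, v, w} k K) (X : SmProjVar k), betti W.toCohomologyData X ≤ b →
        ∀ V : ∀ n : ℕ, Submodule K (W.H (X.selfProd n)), IsSystem W.toCohomologyData X V →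
          ∀ m ≥ m₀,
            (1 / 2 + ε) * Module.finrank K (V m) ≤ numCycRank W.toCohomologyData (X.selfProd m) →
              ∀ s ≤ r, W.StandardD (X.selfProd s) ∧ V s = W.algClasses (X.selfProd s) := by
  obtain ⟨m₀, h⟩ := Pool.Agent.Helper34.ZP.uniform_system_law.{u, v, w, v} b r hε
  refine ⟨m₀, ?_⟩
  intro k _ K _ _ W X hX V hV m hm h1 s hs
  have h2 := h k K K (base W) (nr_base_pos W) X hX V (sys_mor hV) (sys_alg hV) m hm
    (by rw [nr_base]; exact h1) s hs
  exact ⟨(d_base W _).mp h2.1, h2.2⟩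

/-- **Uniform half law for the Tate classes.** -/
theorem uniform_tate (b r : ℕ) (ε : ℝ) (hε : 0 < ε) : ∃ m₀ : ℕ,
    ∀ (k : Type u) [Field k] [Finite k] (K : Type v) [Field K] [CharZero K]
      (W : WeilCohomology.{u, v, w} k K) (X : SmProjVar k), betti W.toCohomologyData X ≤ b →
        ∀ m ≥ m₀, (1 / 2 + ε) * Module.finrank K (tateSystem W.toCohomologyData X m) ≤
          cycRank W.toCohomologyData (X.selfProd m) →
            ∀ s ≤ r, W.StandardD (X.selfProd s) ∧
              tateSystem W.toCohomologyData X s = W.algClasses (X.selfProd s) := by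
  obtain ⟨m₀, h⟩ := uniform_half.{u, v, w} b r ε hε
  refine ⟨m₀, ?_⟩
  intro k _ _ K _ _ W X hX m hm h1 s hs
  exact h k K W X hX (tateSystem W.toCohomologyData X) (isPerfectSystem_tate W X) m hm h1 s hs

end Pool.Agent.Helper10.ZP
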