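import Mathlib
import Pool.Agent.Helper59.ZP.ZDefs
import Pool.Agent.Helper59.ZP.TateIff
import Pool.Agent.Helper34.ZP.UHR

/-!
# The uniform half law with a rate, in terms of Weil cohomology theories
-/

universe u v w

open CategoryTheory Filter Topology

namespace Pool.Agent.Helper10.ZP

open Pool.Agent.Helper10 Pool.Agent.Helper11 SmProjVar Pool.Agent.Helper59.ZO
  Pool.Agent.Helper34.ZP Pool.Agent.Helper11.Iso Pool.Agent.Helper59.ZP

/-- **Uniform half law with a rate.** -/
theorem uniform_half_rateW (b r : ℕ) : ∃ C : ℝ, 0 < C ∧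
    ∀ (k : Type u) [Field k] (K : Type v) [Field K] [CharZero K]
      (W : WeilCohomology.{u, v, w} k K) (X : SmProjVar k), betti W.toCohomologyData X ≤ b →
        ∀ V, IsSystem W.toCohomologyData X V → ∀ m : ℕ,
          NondegenerateAt W.toCohomologyData X V m →
          (1 / 2 + C / Real.log (m + 2)) * Module.finrank K (V m) <
            cycRank W.toCohomologyData (X.selfProd m) →
          AlgebraicUpTo W.toCohomologyData X V r := by
  obtain ⟨C, hC, h⟩ := Pool.Agent.Helper34.ZP.uniform_half_rate.{u, v, w, v} b r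
  refine ⟨C, hC, ?_⟩
  intro k _ K _ _ W X hX V hV m hnd ha s hs
  have h1 := h k K K (base W) (nr_base_pos W) X hX V (sys_mor hV) (sys_alg hV) m
    (fun x hx hy => hnd x hx hy) (by rw [hr_base]; exact ha) s hs
  exact ⟨(d_base W _).mp h1.1, h1.2.le⟩

/-- the same with the numerically non-trivial classes, without non-degeneracy -/
theorem uniform_system_rateW (b r : ℕ) : ∃ C : ℝ, 0 < C ∧
    ∀ (k : Type u) [Field k] (K : Type v) [Field K] [CharZero K]
      (W : WeilCohomology.{u, v, w} k K) (X : SmProjVar k), betti W.toCohomologyData X ≤ b →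
        ∀ V, IsSystem W.toCohomologyData X V → ∀ m : ℕ,
          1 / 2 + C / Real.log (m + 2) < density W.toCohomologyData X V m →
          AlgebraicUpTo W.toCohomologyData X V r := by
  obtain ⟨C, hC, h⟩ := Pool.Agent.Helper34.ZP.uniform_system_rate.{u, v, w, v} b r
  refine ⟨C, hC, ?_⟩
  intro k _ K _ _ W X hX V hV m ha s hs
  have h2 := sys_pos hV m
  have h1 := h k K K (base W) (nr_base_pos W) X hX V (sys_mor hV) (sys_alg hV) m
    (by
      rw [nr_base]
      unfold density at ha
      rw [lt_div_iff₀ h2] at ha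
      exact ha) s hs
  exact ⟨(d_base W _).mp h1.1, h1.2.le⟩

end Pool.Agent.Helper10.ZP
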